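import Mathlib

set_option autoImplicit false

namespace Pool.Agent.H.MP_778a07_co
open Finset

lemma pre (K : Type) [Fintype K] [DecidableEq K] [Nonempty K] (s : ℕ) : ∃ N, ∀ (α : Type)
    [DecidableEq α] (S : Finset α) (c : Sym2 α → K), N ≤ S.card → ∃ T ⊆ S, T.card = s ∧
      ∃ k : α → K, ∀ x ∈ T, ∀ y ∈ T, x ≠ y → c s(x, y) = k x ∨ c s(x, y) = k y := by
  induction s with
  | zero => exact ⟨0, fun α _ S c _ => ⟨∅, by simp, rfl, fun _ => Classical.arbitrary K, by simp⟩⟩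
  | succ s ih =>
    obtain ⟨N, hN⟩ := ih
    refine ⟨Fintype.card K * N + 1, fun α _ S c hS => ?_⟩
    obtain ⟨v, hv⟩ : S.Nonempty := card_pos.1 (by omega)
    obtain ⟨j, -, hj⟩ := exists_le_card_fiber_of_mul_le_card_of_maps_to (s := S.erase v)
      (t := univ) (f := fun u => c s(v, u)) (n := N) (fun _ _ => mem_univ _) univ_nonempty
      (by rw [card_erase_of_mem hv, card_univ]; omega)
    obtain ⟨T, hT, hc, k, hk⟩ := hN α _ c hj
    have hvT : v ∉ T := fun h => by simpa using (mem_filter.1 (hT h)).1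
    refine ⟨insert v T, insert_subset hv fun x hx => mem_of_mem_erase (mem_filter.1 (hT hx)).1,
      by rw [card_insert_of_notMem hvT, hc], Function.update k v j, fun x hx y hy hxy => ?_⟩
    rcases mem_insert.1 hx with rfl | hx' <;> rcases mem_insert.1 hy with rfl | hy'
    · exact absurd rfl hxy
    · exact Or.inl (by simpa using (mem_filter.1 (hT hy')).2)
    · exact Or.inr (by rw [Sym2.eq_swap]; simpa using (mem_filter.1 (hT hx')).2)
    · rw [Function.update_of_ne (ne_of_mem_of_not_mem hx' hvT),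
        Function.update_of_ne (ne_of_mem_of_not_mem hy' hvT)]
      exact hk x hx' y hy' hxy

/-- Finite Ramsey theorem for pairs, relational ordered form. -/
theorem ramsey (K : Type) [Finite K] [Nonempty K] (m : ℕ) : ∃ N, ∀ P : ℕ → ℕ → K → Prop,
    (∀ i j, i < j → j < N → ∃ a, P i j a) → ∃ (f : ℕ → ℕ) (a : K), (∀ t < m, f t < N) ∧
      (∀ s t, s < t → t < m → f s < f t) ∧ ∀ s t, s < t → t < m → P (f s) (f t) a := by
  classical
  have := Fintype.ofFinite K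
  obtain ⟨N, hN⟩ := pre K (Fintype.card K * m)
  refine ⟨N, fun P hP => ?_⟩
  let g : ℕ → ℕ → K := fun i j => if h : ∃ a, P i j a then h.choose else Classical.arbitrary K
  have hg : ∀ i j, i < j → j < N → P i j (g i j) := fun i j h1 h2 => by
    have := hP i j h1 h2
    simp only [g, dif_pos this]
    exact this.choose_spec
  let c : Sym2 ℕ → K := Sym2.lift ⟨fun i j => g (min i j) (max i j), fun i j => by
    simp only [min_comm i j, max_comm i j]⟩
  obtain ⟨T, hT, hc, k, hk⟩ := hN ℕ (range N) c (by simp)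
  obtain ⟨a, -, ha⟩ := exists_le_card_fiber_of_mul_le_card_of_maps_to (s := T)
    (t := univ) (f := k) (n := m) (fun _ _ => mem_univ _) univ_nonempty (by rw [hc, card_univ])
  obtain ⟨M, hM, hm⟩ := exists_subset_card_eq ha
  let e := M.orderEmbOfFin hm
  have he : ∀ t, e t ∈ M := fun t => M.orderEmbOfFin_mem hm t
  refine ⟨fun t => if h : t < m then e ⟨t, h⟩ else 0, a, fun t ht => ?_, fun s t h1 h2 => ?_,
    fun s t h1 h2 => ?_⟩
  · simp only [dif_pos ht]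
    exact mem_range.1 (hT (mem_filter.1 (hM (he _))).1)
  · simp only [dif_pos h2, dif_pos (h1.trans h2)]
    exact e.strictMono (show (⟨s, _⟩ : Fin m) < ⟨t, _⟩ from h1)
  · simp only [dif_pos h2, dif_pos (h1.trans h2)]
    have l : e ⟨s, h1.trans h2⟩ < e ⟨t, h2⟩ :=
      e.strictMono (show (⟨s, _⟩ : Fin m) < ⟨t, _⟩ from h1)
    have p := mem_filter.1 (hM (he ⟨s, h1.trans h2⟩))
    have q := mem_filter.1 (hM (he ⟨t, h2⟩))
    have w : c s(e ⟨s, h1.trans h2⟩, e ⟨t, h2⟩) = a := by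
      rcases hk _ p.1 _ q.1 l.ne with h | h
      exacts [h.trans p.2, h.trans q.2]
    have w2 : c s(e ⟨s, h1.trans h2⟩, e ⟨t, h2⟩) = g (e ⟨s, h1.trans h2⟩) (e ⟨t, h2⟩) := by
      simp only [c, Sym2.lift_mk, min_eq_left l.le, max_eq_right l.le]
    rw [← w, w2]
    exact hg _ _ l (mem_range.1 (hT q.1))

variable {V ι : Type}

def Col (G : SimpleGraph V) (X : Set V) (b : ℕ) : Prop :=
  ∃ c : V → ℕ, (∀ x ∈ X, c x < b) ∧ ∀ x ∈ X, ∀ y ∈ X, G.Adj x y → c x ≠ c y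

structure Tr (r : ι → V → V → Prop) (I : Set ι) (U : Set V) : Prop where
  eqv : ∀ i, Equivalence (r i)
  nest : ∀ i ∈ I, ∀ j ∈ I, i ≠ j → ∃ A B : Set V, (∀ v ∈ U, v ∈ A ∨ v ∈ B) ∧
    (∀ u ∈ A, ∀ v ∈ A, r i u v) ∧ ∀ u ∈ B, ∀ v ∈ B, r j u v
  sep : ∀ H ⊆ U, (∃ u ∈ H, ∃ v ∈ H, u ≠ v) → ∀ x ∈ U, ∃ i ∈ I,
    (∃ u ∈ H, ∃ v ∈ H, ¬ r i u v) ∧ ∀ h ∈ H, r i x h → h = x

def Wd (G : SimpleGraph V) (r : ι → V → V → Prop) (I : Set ι) (U : Set V) (k : ℕ) : Prop :=
  ∀ i ∈ I, ∀ o w : ℕ → V,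
    (∀ t ≤ k, o t ∈ U ∧ w t ∈ U ∧ G.Adj (o t) (w t) ∧ ¬ r i (o t) (w t)) →
    (∀ s ≤ k, ∀ t ≤ k, s ≠ t → ¬ G.Adj (o s) (o t) ∧ ¬ G.Adj (w s) (w t) ∧ ¬ G.Adj (o s) (w t)) →
    False

def Clq (G : SimpleGraph V) (K : ℕ → V) (m : ℕ) : Prop :=
  ∀ s < m, ∀ t < m, s ≠ t → G.Adj (K s) (K t)

def NoC (G : SimpleGraph V) (U : Set V) (m : ℕ) : Prop :=
  ∀ K : ℕ → V, (∀ t < m, K t ∈ U) → Clq G K m → False

def Conn (G : SimpleGraph V) (H : Set V) : Prop :=
  ∀ S : Set V, (∀ u ∈ H, ∀ v ∈ H, G.Adj u v → u ∈ S → v ∈ S) → ∀ u ∈ H, ∀ v ∈ H, u ∈ S → v ∈ S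

def Far (G : SimpleGraph V) (x v : V) : Prop := ¬ G.Adj x v ∧ x ≠ v

def SI (G : SimpleGraph V) (r : ι → V → V → Prop) (I : Set ι) (U : Set V) (M : ℕ) : Prop :=
  ∀ i ∈ I, ∀ o w : ℕ → V,
    (∀ t < M, o t ∈ U ∧ w t ∈ U ∧ G.Adj (o t) (w t) ∧ ¬ r i (o t) (w t)) →
    (∀ s < M, ∀ t < M, s ≠ t → ¬ G.Adj (o s) (w t)) → False

variable {G : SimpleGraph V} {r : ι → V → V → Prop} {I : Set ι} {U X Y H : Set V}

lemma Col.mono {a b : ℕ} (h : Col G Y a) (s : X ⊆ Y) (l : a ≤ b) : Col G X b := by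
  obtain ⟨c, h1, h2⟩ := h
  exact ⟨c, fun x hx => (h1 x (s hx)).trans_le l, fun x hx y hy => h2 x (s hx) y (s hy)⟩

lemma col_empty (b : ℕ) : Col G ∅ b := ⟨fun _ => 0, by simp, by simp⟩

lemma col_single (v : V) : Col G {v} 1 :=
  ⟨fun _ => 0, by simp, by simp⟩

lemma Col.union {a b : ℕ} (h : Col G X a) (h' : Col G Y b) : Col G (X ∪ Y) (a + b) := by
  classical
  obtain ⟨c, h1, h2⟩ := h
  obtain ⟨d, g1, g2⟩ := h'
  refine ⟨fun x => if x ∈ X then c x else a + d x, fun x hx => ?_, fun x hx y hy e => ?_⟩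
  · by_cases p : x ∈ X
    · have := h1 x p
      simp only [if_pos p]; omega
    · have := g1 x (hx.resolve_left p)
      simp only [if_neg p]; omega
  · by_cases p : x ∈ X <;> by_cases q : y ∈ X
    · simpa only [if_pos p, if_pos q] using h2 x p y q e
    · have := h1 x p
      simp only [if_pos p, if_neg q]; omega
    · have := h1 y q
      simp only [if_pos q, if_neg p]; omega
    · have := g2 x (hx.resolve_left p) y (hy.resolve_left q) e
      simp only [if_neg p, if_neg q]; omega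

lemma col_biUnion {α : Type} (C : Finset α) (F : α → Set V) (b : ℕ) (h : ∀ c ∈ C, Col G (F c) b) :
    Col G {x | ∃ c ∈ C, x ∈ F c} (C.card * b) := by
  classical
  induction C using Finset.induction_on with
  | empty => exact (col_empty 0).mono (fun x hx => by simp at hx) (Nat.zero_le _)
  | insert a C ha ih =>
    refine ((h a (mem_insert_self _ _)).union
      (ih fun c hc => h c (mem_insert_of_mem hc))).mono (fun x hx => ?_) ?_
    · obtain ⟨c, hc, hx⟩ := hx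
      rcases mem_insert.1 hc with rfl | hc
      exacts [Or.inl hx, Or.inr ⟨c, hc, hx⟩]
    · rw [card_insert_of_notMem ha]; nlinarith

lemma Tr.mono (h : Tr r I U) (s : X ⊆ U) : Tr r I X :=
  ⟨h.eqv, fun i hi j hj n => by
    obtain ⟨A, B, a, b⟩ := h.nest i hi j hj n
    exact ⟨A, B, fun v hv => a v (s hv), b⟩,
   fun H hH a x hx => h.sep H (hH.trans s) a x (s hx)⟩

lemma Wd.mono {k : ℕ} (h : Wd G r I U k) (s : X ⊆ U) : Wd G r I X k :=
  fun i hi o w a b => h i hi o w (fun t ht => ⟨s (a t ht).1, s (a t ht).2.1, (a t ht).2.2⟩) b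

lemma SI.mono {k : ℕ} (h : SI G r I U k) (s : X ⊆ U) : SI G r I X k :=
  fun i hi o w a b => h i hi o w (fun t ht => ⟨s (a t ht).1, s (a t ht).2.1, (a t ht).2.2⟩) b

lemma NoC.mono {k : ℕ} (h : NoC G U k) (s : X ⊆ U) : NoC G X k :=
  fun K a b => h K (fun t ht => s (a t ht)) b

lemma Clq.snoc {K : ℕ → V} {m : ℕ} {c : V} (h : Clq G K m) (hc : ∀ t < m, G.Adj c (K t)) :
    Clq G (Function.update K m c) (m + 1) := by
  intro s hs t ht n
  by_cases p : s = m <;> by_cases q : t = m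
  · omega
  · subst p
    rw [Function.update_self, Function.update_of_ne q]
    exact hc t (by omega)
  · subst q
    rw [Function.update_self, Function.update_of_ne p]
    exact (hc s (by omega)).symm
  · rw [Function.update_of_ne p, Function.update_of_ne q]
    exact h s (by omega) t (by omega) n

lemma snoc_all {K : ℕ → V} {m : ℕ} {c : V} {P : V → Prop} (h : ∀ t < m, P (K t)) (hc : P c) :
    ∀ t < m + 1, P (Function.update K m c t) := by
  intro t ht
  by_cases q : t = m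
  · subst q; rwa [Function.update_self]
  · rw [Function.update_of_ne q]; exact h t (by omega)

lemma conn_single (v : V) : Conn G {v} := by
  rintro S - u rfl w rfl h
  exact h

lemma Conn.insert (h : Conn G H) {v u : V} (hu : u ∈ H) (e : G.Adj v u ∨ v = u) :
    Conn G (insert v H) := by
  intro S hS
  have h0 := h S fun a ha b hb => hS a (Or.inr ha) b (Or.inr hb)
  have h1 : v ∈ S ↔ u ∈ S := by
    rcases e with e | rfl
    · exact ⟨hS v (Or.inl rfl) u (Or.inr hu) e, hS u (Or.inr hu) v (Or.inl rfl) e.symm⟩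
    · rfl
  rintro a (rfl | ha) b (rfl | hb) p
  · exact p
  · exact h0 u hu b hb (h1.1 p)
  · exact h1.2 (h0 a ha u hu p)
  · exact h0 a ha b hb p

lemma Conn.union (h : Conn G H) (hX : ∀ v ∈ X, ∃ u ∈ H, G.Adj v u ∨ v = u) :
    Conn G (H ∪ X) := by
  intro S hS
  have h0 := h S fun a ha b hb => hS a (Or.inl ha) b (Or.inl hb)
  have h1 : ∀ v ∈ H ∪ X, ∃ u ∈ H, (v ∈ S ↔ u ∈ S) := by
    rintro v (hv | hv)
    · exact ⟨v, hv, Iff.rfl⟩
    · obtain ⟨u, hu, e | rfl⟩ := hX v hv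
      · exact ⟨u, hu, hS v (Or.inr hv) u (Or.inl hu) e, hS u (Or.inl hu) v (Or.inr hv) e.symm⟩
      · exact ⟨v, hu, Iff.rfl⟩
  intro a ha b hb p
  obtain ⟨u, hu, e⟩ := h1 a ha
  obtain ⟨u', hu', e'⟩ := h1 b hb
  exact e'.2 (h0 u hu u' hu' (e.1 p))

theorem si_exists (k w : ℕ) : ∃ M, ∀ (V ι : Type) (G : SimpleGraph V) (r : ι → V → V → Prop)
    (I : Set ι) (U : Set V), Wd G r I U k → NoC G U w → SI G r I U M := by
  obtain ⟨N, hN⟩ := ramsey (Fin 3) (k + 1 + w)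
  refine ⟨N, fun V ι G r I U hW hC i hi o p a b => ?_⟩
  obtain ⟨f, c, f1, f2, f3⟩ := hN (fun s t c => (c = 0 ∧ G.Adj (o s) (o t)) ∨
      (c = 1 ∧ G.Adj (p s) (p t)) ∨ (c = 2 ∧ ¬ G.Adj (o s) (o t) ∧ ¬ G.Adj (p s) (p t)))
    fun s t _ _ => by
      by_cases x : G.Adj (o s) (o t)
      · exact ⟨0, Or.inl ⟨rfl, x⟩⟩
      by_cases y : G.Adj (p s) (p t)
      · exact ⟨1, Or.inr (Or.inl ⟨rfl, y⟩)⟩
      exact ⟨2, Or.inr (Or.inr ⟨rfl, x, y⟩)⟩
  have sy : ∀ (R : ℕ → ℕ → Prop), (∀ s t, R s t → R t s) →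
      (∀ s t, s < t → t < k + 1 + w → R s t) →
      ∀ s < k + 1 + w, ∀ t < k + 1 + w, s ≠ t → R s t := fun R h1 h2 s hs t ht n => by
    rcases lt_or_gt_of_ne n with l | l
    exacts [h2 s t l ht, h1 _ _ (h2 t s l hs)]
  have c3 : c = 0 ∨ c = 1 ∨ c = 2 := by fin_cases c <;> simp
  rcases c3 with rfl | rfl | rfl
  · refine hC (fun t => o (f t)) (fun t ht => (a _ (f1 t (by omega))).1) fun s hs t ht n =>
      sy (fun s t => G.Adj (o (f s)) (o (f t))) (fun _ _ e => e.symm) (fun s t l ht => ?_)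
        s (by omega) t (by omega) n
    simpa using f3 s t l ht
  · refine hC (fun t => p (f t)) (fun t ht => (a _ (f1 t (by omega))).2.1) fun s hs t ht n =>
      sy (fun s t => G.Adj (p (f s)) (p (f t))) (fun _ _ e => e.symm) (fun s t l ht => ?_)
        s (by omega) t (by omega) n
    simpa using f3 s t l ht
  · refine hW i hi (fun t => o (f t)) (fun t => p (f t)) (fun t ht => a _ (f1 t (by omega)))
      fun s hs t ht n => ?_
    have q := sy (fun s t => (¬ G.Adj (o (f s)) (o (f t)) ∧ ¬ G.Adj (p (f s)) (p (f t))) ∧ f s ≠ f t)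
      (fun _ _ e => ⟨⟨fun x => e.1.1 x.symm, fun x => e.1.2 x.symm⟩, e.2.symm⟩)
      (fun s t l ht => ⟨by simpa using f3 s t l ht, (f2 s t l ht).ne⟩) s (by omega) t (by omega) n
    exact ⟨q.1.1, q.1.2, b _ (f1 s (by omega)) _ (f1 t (by omega)) q.2⟩

end Pool.Agent.H.MP_778a07_co
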