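import Pool.Agent.H.MP_778a07_co.A

set_option autoImplicit false

namespace Pool.Agent.H.MP_778a07_co
open Finset

variable {V ι : Type} {G : SimpleGraph V} {r : ι → V → V → Prop} {I : Set ι} {U X Y H : Set V}

theorem dom {M b : ℕ} (hU : U.Finite) (he : ∀ i, Equivalence (r i)) (hS : SI G r I U M) {i : ι}
    (hi : i ∈ I) (a : V) (y : V → V) (D : Set V) (hy : ∀ x ∈ X, y x ∈ U)
    (hb : ∀ c, Col G {x | x ∈ X ∧ c ∈ D ∧ G.Adj (y x) c} b) :
    Col G {x | x ∈ X ∧ r i a (y x) ∧ ∃ c ∈ D, c ∈ U ∧ ¬ r i a c ∧ G.Adj (y x) c} (M * b) := by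
  classical
  let Y : Set V := {v | v ∈ U ∧ r i a v ∧ ∃ c ∈ D, c ∈ U ∧ ¬ r i a c ∧ G.Adj v c}
  have ex : ∃ n, ∃ C : Finset V, C.card = n ∧ (∀ c ∈ C, c ∈ D ∧ c ∈ U ∧ ¬ r i a c) ∧
      ∀ v ∈ Y, ∃ c ∈ C, G.Adj v c := by
    refine ⟨_, hU.toFinset.filter fun c => c ∈ D ∧ ¬ r i a c, rfl, fun c hc => ?_, ?_⟩
    · have := mem_filter.1 hc
      exact ⟨this.2.1, hU.mem_toFinset.1 this.1, this.2.2⟩
    · rintro v ⟨-, -, c, c1, c2, c3, c4⟩
      exact ⟨c, mem_filter.2 ⟨hU.mem_toFinset.2 c2, c1, c3⟩, c4⟩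
  obtain ⟨C, c1, c2, c3⟩ := Nat.find_spec ex
  have le : C.card ≤ M := by
    by_contra hl
    push Not at hl
    have pv : ∀ c ∈ C, ∃ v ∈ Y, G.Adj v c ∧ ∀ c' ∈ C, c' ≠ c → ¬ G.Adj v c' := by
      intro c hc
      have := Nat.find_min ex (m := C.card - 1) (by omega)
      by_contra hn
      push Not at hn
      refine this ⟨C.erase c, card_erase_of_mem hc, fun d hd => c2 d (mem_of_mem_erase hd),
        fun v hv => ?_⟩
      obtain ⟨d, hd, e⟩ := c3 v hv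
      by_cases q : d = c
      · subst q
        obtain ⟨d', h1, h2, h3⟩ := hn v hv e
        exact ⟨d', mem_erase.2 ⟨h2, h1⟩, h3⟩
      · exact ⟨d, mem_erase.2 ⟨q, hd⟩, e⟩
    choose! v v1 v2 v3 using pv
    let g : ℕ → V := fun t => if h : t < C.card then (C.equivFin.symm ⟨t, h⟩ : V) else a
    have g1 : ∀ t < M, g t ∈ C := fun t ht => by
      simp only [g, dif_pos (ht.trans hl)]
      exact Subtype.prop _
    have g2 : ∀ s < M, ∀ t < M, s ≠ t → g s ≠ g t := fun s hs t ht n e => by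
      simp only [g, dif_pos (ht.trans hl), dif_pos (hs.trans hl)] at e
      exact n (by simpa using C.equivFin.symm.injective (Subtype.ext e))
    refine hS i hi (fun t => v (g t)) g (fun t ht => ?_) fun s hs t ht n =>
      v3 _ (g1 s hs) _ (g1 t ht) (g2 t ht s hs n.symm)
    have p := v1 _ (g1 t ht)
    have q := c2 _ (g1 t ht)
    exact ⟨p.1, q.2.1, v2 _ (g1 t ht), fun e => q.2.2 ((he i).trans p.2.1 e)⟩
  refine (col_biUnion C (fun c => {x | x ∈ X ∧ c ∈ D ∧ G.Adj (y x) c}) b fun c _ => hb c).mono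
    (fun x hx => ?_) (Nat.mul_le_mul_right _ le)
  obtain ⟨c, hc, e⟩ := c3 (y x) ⟨hy x hx.1, hx.2⟩
  exact ⟨c, hc, hx.1, (c2 c hc).1, e⟩

lemma col_fib {δ σ : ℕ} (c : V → ℕ) (h : ∀ x ∈ X, c x < δ)
    (hc : ∀ a, Col G {x | x ∈ X ∧ c x = a} σ) : Col G X (δ * σ) := by
  have := col_biUnion (range δ) (fun a => {x | x ∈ X ∧ c x = a}) σ fun a _ => hc a
  rw [card_range] at this
  exact this.mono (fun x hx => ⟨c x, mem_range.2 (h x hx), hx, rfl⟩) le_rfl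

lemma col_parts {β : Type} {b : ℕ} (p : V → β) (h : ∀ x ∈ X, ∀ y ∈ X, G.Adj x y → p x = p y)
    (hc : ∀ x ∈ X, Col G {y | y ∈ X ∧ p y = p x} b) : Col G X b := by
  have : ∀ q, Col G {y | y ∈ X ∧ p y = q} b := fun q => by
    by_cases e : ∃ x ∈ X, p x = q
    · obtain ⟨x, hx, rfl⟩ := e
      exact hc x hx
    · exact (col_empty b).mono (fun x hx => (e ⟨x, hx⟩).elim) le_rfl
  choose c c1 c2 using this
  refine ⟨fun x => c (p x) x, fun x hx => c1 _ x ⟨hx, rfl⟩, fun x hx y hy e => ?_⟩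
  have := h x hx y hy e
  show c (p x) x ≠ c (p y) y
  rw [← this]
  exact c2 _ x ⟨hx, rfl⟩ y ⟨hy, this.symm⟩ e

theorem loc {k σ δ : ℕ} (hT : Tr r I U) (hW : Wd G r I U (k + 1))
    (IH : ∀ (r' : ι → V → V → Prop) (I' : Set ι) (X' : Set V), X' ⊆ U → Tr r' I' X' →
      Wd G r' I' X' k → Col G X' σ)
    (hH : H ⊆ U) (hc : Conn G H) (h2 : ∃ u ∈ H, ∃ v ∈ H, u ≠ v) (hX : X ⊆ U)
    (hf : ∀ x ∈ X, ∀ h ∈ H, Far G x h)
    (hδ : ∀ i ∈ I, ∀ a, (∀ h ∈ H, ¬ r i a h) → Col G {x | x ∈ X ∧ r i a x} δ) :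
    Col G X (δ * σ) := by
  classical
  have E := hT.eqv
  let J : Set ι := {i | i ∈ I ∧ ∃ u ∈ H, ∃ v ∈ H, ¬ r i u v}
  have ex : ∀ x ∈ X, ∃ i ∈ J, ∀ h ∈ H, ¬ r i x h := fun x hx => by
    obtain ⟨i, hi, a, b⟩ := hT.sep H hH h2 x (hX hx)
    exact ⟨i, ⟨hi, a⟩, fun h hh e => (hf x hx h hh).2 (b h hh e).symm⟩
  have nst : ∀ i ∈ I, ∀ j ∈ J, i ≠ j → ∃ A B : Set V, (∀ v ∈ U, v ∈ A ∨ v ∈ B) ∧
      (∀ u ∈ A, ∀ v ∈ A, r i u v) ∧ (∀ u ∈ B, ∀ v ∈ B, r j u v) ∧ ∃ h ∈ H, h ∈ A := by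
    intro i hi j hj n
    obtain ⟨A, B, a, b, c⟩ := hT.nest i hi j hj.1 n
    refine ⟨A, B, a, b, c, ?_⟩
    obtain ⟨u, hu, v, hv, e⟩ := hj.2
    by_contra hn
    push Not at hn
    exact e (c u ((a u (hH hu)).resolve_left (hn u hu)) v ((a v (hH hv)).resolve_left (hn v hv)))
  have nst2 : ∀ i ∈ J, ∀ j ∈ J, i ≠ j → ∃ A B : Set V, (∀ v ∈ U, v ∈ A ∨ v ∈ B) ∧
      (∀ u ∈ A, ∀ v ∈ A, r i u v) ∧ (∀ u ∈ B, ∀ v ∈ B, r j u v) ∧ (∃ h ∈ H, h ∈ A) ∧
      ∃ h ∈ H, h ∈ B := by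
    intro i hi j hj n
    obtain ⟨A, B, a, b, c, d⟩ := nst i hi.1 j hj n
    refine ⟨A, B, a, b, c, d, ?_⟩
    obtain ⟨u, hu, v, hv, e⟩ := hi.2
    by_contra hn
    push Not at hn
    exact e (b u ((a u (hH hu)).resolve_right (hn u hu)) v ((a v (hH hv)).resolve_right (hn v hv)))
  have uq : ∀ x ∈ U, ∀ i ∈ J, ∀ j ∈ J, (∀ h ∈ H, ¬ r i x h) → (∀ h ∈ H, ¬ r j x h) → i = j := by
    intro x hx i hi j hj p q
    by_contra n
    obtain ⟨A, B, a, b, c, ⟨h, h1, h2⟩, ⟨g, g1, g2⟩⟩ := nst2 i hi j hj n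
    rcases a x hx with e | e
    exacts [p h h1 (b x e h h2), q g g1 (c x e g g2)]
  by_cases hne : X = ∅
  · rw [hne]; exact col_empty _
  obtain ⟨x0, hx0⟩ := Set.nonempty_iff_ne_empty.2 hne
  have : Nonempty ι := ⟨(ex x0 hx0).choose⟩
  choose! n n1 n2 using ex
  have hcol : ∀ S : Set V, ∃ c : V → ℕ, (∃ i ∈ I, ∃ a, (∀ h ∈ H, ¬ r i a h) ∧
      S = {x | x ∈ X ∧ r i a x}) → (∀ x ∈ S, c x < δ) ∧ ∀ x ∈ S, ∀ y ∈ S, G.Adj x y → c x ≠ c y := by
    intro S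
    by_cases e : ∃ i ∈ I, ∃ a, (∀ h ∈ H, ¬ r i a h) ∧ S = {x | x ∈ X ∧ r i a x}
    · obtain ⟨i, hi, a, e1, rfl⟩ := e
      obtain ⟨c, hc⟩ := hδ i hi a e1
      exact ⟨c, fun _ => hc⟩
    · exact ⟨fun _ => 0, fun h => (e h).elim⟩
  choose c hcc using hcol
  let cl : V → Set V := fun x => {y | y ∈ X ∧ r (n x) x y}
  have cc : ∀ x ∈ X, (∀ y ∈ cl x, c (cl x) y < δ) ∧
      ∀ y ∈ cl x, ∀ z ∈ cl x, G.Adj y z → c (cl x) y ≠ c (cl x) z := fun x hx =>
    hcc _ ⟨n x, (n1 x hx).1, x, n2 x hx, rfl⟩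
  have key : ∀ x ∈ X, ∀ y ∈ X, ∀ i ∈ J, (∀ h ∈ H, ¬ r i x h) → r i x y → G.Adj x y →
      c (cl x) x ≠ c (cl y) y := by
    intro x hx y hy i hi p q e
    have e1 : i = n x := uq x (hX hx) i hi _ (n1 x hx) p (n2 x hx)
    have e2 : i = n y := uq y (hX hy) i hi _ (n1 y hy)
      (fun h hh t => p h hh ((E i).trans q t)) (n2 y hy)
    have e3 : cl y = cl x := by
      ext z
      simp only [cl, Set.mem_ofPred_eq, ← e1, ← e2]
      exact and_congr_right fun _ => ⟨fun t => (E i).trans q t, fun t => (E i).trans ((E i).symm q) t⟩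
    rw [e3]
    exact (cc x hx).2 x ⟨hx, (E _).refl _⟩ y ⟨hy, e1 ▸ q⟩ e
  refine col_fib (fun x => c (cl x) x) (fun x hx => (cc x hx).1 x ⟨hx, (E _).refl _⟩) fun a => ?_
  have sU : {x | x ∈ X ∧ c (cl x) x = a} ⊆ U := fun x hx => hX hx.1
  refine IH (fun i u v => u = v ∨ (r i u v ∧ ∃ h ∈ H, r i u h)) J _ sU ⟨fun i => ⟨fun _ => Or.inl rfl,
    ?_, ?_⟩, fun i hi j hj ne => ?_, fun H' hH' h2' x hx => ?_⟩ fun i hi o w p q => ?_
  · rintro u v (rfl | ⟨p, h, hh, q⟩)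
    exacts [Or.inl rfl, Or.inr ⟨(E i).symm p, h, hh, (E i).trans ((E i).symm p) q⟩]
  · rintro u v w (rfl | ⟨p, h, hh, q⟩) t
    · exact t
    · rcases t with rfl | ⟨p', -⟩
      exacts [Or.inr ⟨p, h, hh, q⟩, Or.inr ⟨(E i).trans p p', h, hh, q⟩]
  · obtain ⟨A, B, a, b, c, ⟨h, h1, h2⟩, ⟨g, g1, g2⟩⟩ := nst2 i hi j hj ne
    exact ⟨A, B, fun v hv => a v (sU hv), fun u hu v hv => Or.inr ⟨b u hu v hv, h, h1, b u hu h h2⟩,
      fun u hu v hv => Or.inr ⟨c u hu v hv, g, g1, c u hu g g2⟩⟩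
  · obtain ⟨i, hi, ⟨u, hu, v, hv, e⟩, b⟩ := hT.sep H' (hH'.trans sU) h2' x (sU hx)
    by_cases hJ : i ∈ J
    · refine ⟨i, hJ, ⟨u, hu, v, hv, ?_⟩, ?_⟩
      · rintro (rfl | t)
        exacts [e ((E i).refl _), e t.1]
      · rintro h hh (rfl | t)
        exacts [rfl, b h hh t.1]
    have all : ∀ u ∈ H, ∀ v ∈ H, r i u v := by
      by_contra hn
      push Not at hn
      exact hJ ⟨hi, hn⟩
    obtain ⟨h0, hh0, -⟩ := id h2
    obtain ⟨g, hg, ng⟩ : ∃ g ∈ H', ¬ r i g h0 := by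
      by_contra hn
      push Not at hn
      exact e ((E i).trans (hn u hu) ((E i).symm (hn v hv)))
    have gX : g ∈ X := (hH' hg).1
    obtain ⟨A, B, a1, a2, a3, h, h1, h2⟩ := nst i hi (n g) (n1 g gX) fun t => hJ (t ▸ n1 g gX)
    have gB : g ∈ B := (a1 g (hX gX)).resolve_left fun t =>
      ng ((E i).trans (a2 g t h h2) (all h h1 h0 hh0))
    refine ⟨n g, n1 g gX, ?_, ?_⟩
    · obtain ⟨g', hg', ne⟩ : ∃ g' ∈ H', g ≠ g' := by
        obtain ⟨p, hp, q, hq, ne⟩ := h2'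
        by_cases t : g = p
        exacts [⟨q, hq, t ▸ ne⟩, ⟨p, hp, t⟩]
      refine ⟨g, hg, g', hg', ?_⟩
      rintro (t | ⟨-, h', hh', t⟩)
      exacts [ne t, n2 g gX h' hh' t]
    · rintro g' hg' (rfl | ⟨t, h', hh', t'⟩)
      · rfl
      have nB : ∀ z, r (n g) x z → z ∈ B → False := fun z p q =>
        n2 g gX h' hh' ((E _).trans (a3 g gB z q) ((E _).trans ((E _).symm p) t'))
      exact b g' hg' (a2 x ((a1 x (sU hx)).resolve_right (nB x ((E _).refl _))) g'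
        ((a1 g' (sU (hH' hg'))).resolve_right (nB g' t)))
  · obtain ⟨u, hu, v, hv, e, ne⟩ : ∃ u ∈ H, ∃ v ∈ H, G.Adj u v ∧ ¬ r i u v := by
      by_contra hn
      push Not at hn
      obtain ⟨u, hu, v, hv, e⟩ := hi.2
      exact e (hc {z | r i u z} (fun a ha b hb t s => (E i).trans s (hn a ha b hb t)) u hu v hv
        ((E i).refl _))
    refine hW i hi.1 (Function.update o (k + 1) u) (Function.update w (k + 1) v) (fun t ht => ?_)
      fun s hs t ht n => ?_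
    · by_cases z : t = k + 1
      · subst z
        simp only [Function.update_self]
        exact ⟨hH hu, hH hv, e, ne⟩
      · simp only [Function.update_of_ne z]
        obtain ⟨p1, p2, p3, p4⟩ := p t (by omega)
        refine ⟨sU p1, sU p2, p3, fun z => ?_⟩
        refine key _ p1.1 _ p2.1 i hi (fun h hh y => p4 (Or.inr ⟨z, h, hh, y⟩)) z p3 ?_
        exact p1.2.trans p2.2.symm
    · by_cases z : s = k + 1 <;> by_cases z' : t = k + 1
      · omega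
      · subst z
        simp only [Function.update_self, Function.update_of_ne z']
        obtain ⟨p1, p2, -⟩ := p t (by omega)
        exact ⟨fun y => (hf _ p1.1 u hu).1 y.symm, fun y => (hf _ p2.1 v hv).1 y.symm,
          fun y => (hf _ p2.1 u hu).1 y.symm⟩
      · subst z'
        simp only [Function.update_self, Function.update_of_ne z]
        obtain ⟨p1, p2, -⟩ := p s (by omega)
        exact ⟨(hf _ p1.1 u hu).1, (hf _ p2.1 v hv).1, (hf _ p1.1 v hv).1⟩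
      · simp only [Function.update_of_ne z, Function.update_of_ne z']
        exact q s (by omega) t (by omega) n

def Ball (G : SimpleGraph V) (X : Set V) (v : V) : ℕ → Set V
  | 0 => {v}
  | n + 1 => Ball G X v n ∪ {x | x ∈ X ∧ ∃ u ∈ Ball G X v n, G.Adj x u}

theorem layers {b : ℕ} (h1 : 1 ≤ b) (hN : ∀ v ∈ X, Col G {x | x ∈ X ∧ G.Adj x v} b)
    (h : ∀ H L : Set V, H ⊆ X → H.Nonempty → Conn G H → L ⊆ X →
      (∀ x ∈ L, (∀ h ∈ H, Far G x h) ∧ ∃ y ∈ X, ∃ h ∈ H, G.Adj x y ∧ G.Adj y h) → Col G L b) :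
    Col G X (b + b) := by
  classical
  let R : V → V → Prop := fun u v => u ∈ X ∧ v ∈ X ∧ G.Adj u v
  have Rs : ∀ u v, R u v → R v u := fun u v e => ⟨e.2.1, e.1, e.2.2.symm⟩
  let C : V → Set V := fun x => {u | Relation.ReflTransGen R u x}
  let root : V → V := fun x => @Classical.epsilon V ⟨x⟩ (· ∈ C x)
  have r1 : ∀ x, Relation.ReflTransGen R (root x) x := fun x =>
    @Classical.epsilon_spec V (· ∈ C x) ⟨x, Relation.ReflTransGen.refl⟩
  have r2 : ∀ x ∈ X, ∀ y ∈ X, G.Adj x y → root x = root y := fun x hx y hy e => by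
    have : C x = C y := by
      ext u
      exact ⟨fun t => Relation.ReflTransGen.tail t ⟨hx, hy, e⟩,
        fun t => Relation.ReflTransGen.tail t ⟨hy, hx, e.symm⟩⟩
    simp only [root, this]
  have r3 : ∀ x ∈ X, root x ∈ X := fun x hx => by
    rcases (r1 x).cases_head with e | ⟨u, e, -⟩
    exacts [by rw [e]; exact hx, e.1]
  have bx : ∀ v ∈ X, ∀ n, Ball G X v n ⊆ X := fun v hv n => by
    induction n with
    | zero => rintro _ rfl; exact hv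
    | succ n ih => exact Set.union_subset ih fun x hx => hx.1
  have b0 : ∀ v n, v ∈ Ball G X v n := fun v n => by
    induction n with
    | zero => rfl
    | succ n ih => exact Or.inl ih
  have bc : ∀ v n, Conn G (Ball G X v n) := fun v n => by
    induction n with
    | zero => exact conn_single v
    | succ n ih => exact ih.union fun x ⟨_, u, hu, e⟩ => ⟨u, hu, Or.inl e⟩
  have ex : ∀ x, ∃ n, x ∈ Ball G X (root x) n := fun x => by
    have : ∀ u, Relation.ReflTransGen R (root x) u → ∃ n, u ∈ Ball G X (root x) n := by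
      intro u t
      induction t with
      | refl => exact ⟨0, rfl⟩
      | tail _ e ih =>
        obtain ⟨n, hn⟩ := ih
        exact ⟨n + 1, Or.inr ⟨e.2.1, _, hn, e.2.2.symm⟩⟩
    exact this x (r1 x)
  let l : V → ℕ := fun x => Nat.find (ex x)
  have l1 : ∀ x, x ∈ Ball G X (root x) (l x) := fun x => Nat.find_spec (ex x)
  have l2 : ∀ x n, x ∈ Ball G X (root x) n → l x ≤ n := fun x n hn => Nat.find_min' (ex x) hn
  have l3 : ∀ x ∈ X, ∀ y ∈ X, G.Adj x y → l x ≤ l y + 1 := fun x hx y hy e =>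
    l2 x _ (Or.inr ⟨hx, y, r2 x hx y hy e ▸ l1 y, e⟩)
  have lay : ∀ v ∈ X, ∀ n, Col G {y | y ∈ X ∧ root y = v ∧ l y = n} b := by
    intro v hv n
    have m1 : ∀ y, root y = v → l y = n → y ∈ Ball G X v n := fun y p q => p ▸ q ▸ l1 y
    have m2 : ∀ y, root y = v → l y = n → ∀ m, y ∈ Ball G X v m → n ≤ m := fun y p q m t =>
      q ▸ l2 y m (p ▸ t)
    match n with
    | 0 => exact (col_single v).mono (fun y hy => m1 y hy.2.1 hy.2.2) h1
    | 1 =>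
      refine (hN v hv).mono (fun y hy => ?_) le_rfl
      rcases m1 y hy.2.1 hy.2.2 with t | ⟨t, u, rfl, e⟩
      · exact absurd (m2 y hy.2.1 hy.2.2 0 t) (by omega)
      · exact ⟨t, e⟩
    | n + 2 =>
      refine h (Ball G X v n) _ (bx v hv n) ⟨v, b0 v n⟩ (bc v n) (fun y hy => hy.1) fun y hy => ?_
      have m3 := m2 y hy.2.1 hy.2.2
      refine ⟨fun u hu => ⟨fun e => ?_, fun e => ?_⟩, ?_⟩
      · have := m3 (n + 1) (Or.inr ⟨hy.1, u, hu, e⟩); omega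
      · have := m3 n (e ▸ hu); omega
      rcases m1 y hy.2.1 hy.2.2 with t | ⟨-, u, t | ⟨t, w, hw, e'⟩, e⟩
      · have := m3 _ t; omega
      · have := m3 (n + 1) (Or.inr ⟨hy.1, u, t, e⟩); omega
      · exact ⟨u, t, w, hw, e, e'⟩
  have par : ∀ p, Col G {x | x ∈ X ∧ l x % 2 = p} b := fun p => by
    refine col_parts (fun x => (root x, l x)) (fun x hx y hy e => ?_) fun x hx => ?_
    · have := l3 x hx.1 y hy.1 e
      have := l3 y hy.1 x hx.1 e.symm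
      have := hx.2
      have := hy.2
      exact Prod.ext (r2 x hx.1 y hy.1 e) (by simp only; omega)
    · exact (lay (root x) (r3 x hx.1) (l x)).mono (fun y hy =>
        ⟨hy.1.1, congrArg Prod.fst hy.2, congrArg Prod.snd hy.2⟩) le_rfl
  refine ((par 0).union (par 1)).mono (fun x hx => ?_) le_rfl
  rcases Nat.mod_two_eq_zero_or_one (l x) with e | e
  exacts [Or.inl ⟨hx, e⟩, Or.inr ⟨hx, e⟩]

end Pool.Agent.H.MP_778a07_co
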