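import Pool.Agent.H.MP_778a07_co.B

set_option autoImplicit false

namespace Pool.Agent.H.MP_778a07_co
open Filter

variable {V ι : Type}

def Lg (G : ℕ → SimpleGraph V) (X : ℕ → Set V) : Prop :=
  ∀ b, ∀ᶠ n in (hyperfilter ℕ : Filter ℕ), ¬ Col (G n) (X n) b

section
variable {G : ℕ → SimpleGraph V} {X Y : ℕ → Set V}

lemma not_lg : ¬ Lg G X ↔ ∃ b, ∀ᶠ n in (hyperfilter ℕ : Filter ℕ), Col (G n) (X n) b := by
  unfold Lg
  rw [not_forall]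
  exact exists_congr fun b => by rw [Ultrafilter.eventually_not, not_not]

lemma Lg.mono (h : Lg G X) (s : ∀ n, X n ⊆ Y n) : Lg G Y :=
  fun b => (h b).mono fun n p q => p (q.mono (s n) le_rfl)

lemma small_union (h : ¬ Lg G X) (h' : ¬ Lg G Y) : ¬ Lg G fun n => X n ∪ Y n := by
  obtain ⟨a, ha⟩ := not_lg.1 h
  obtain ⟨b, hb⟩ := not_lg.1 h'
  exact not_lg.2 ⟨a + b, (ha.and hb).mono fun n p => p.1.union p.2⟩

lemma Lg.diff (h : Lg G X) (h' : ¬ Lg G Y) : Lg G fun n => X n \ Y n := by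
  by_contra q
  refine small_union q h' (h.mono fun n x hx => ?_)
  by_cases e : x ∈ Y n
  exacts [Or.inr e, Or.inl ⟨hx, e⟩]

lemma small_of_col {b : ℕ} (h : ∀ n, Col (G n) (X n) b) : ¬ Lg G X :=
  not_lg.2 ⟨b, Eventually.of_forall h⟩

lemma Lg.ex (h : Lg G X) : ∃ n, ∃ x, x ∈ X n := by
  by_contra q
  push Not at q
  exact small_of_col (fun n => (col_empty 0).mono (fun x hx => (q n x hx).elim) le_rfl) h

lemma Lg.diff_fin {R : Type} [Finite R] (h : Lg G X) (Z : R → ℕ → Set V)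
    (hZ : ∀ t, ¬ Lg G (Z t)) : Lg G fun n => {x | x ∈ X n ∧ ∀ t, x ∉ Z t n} := by
  classical
  have := Fintype.ofFinite R
  choose b hb using fun t => not_lg.1 (hZ t)
  have : ¬ Lg G fun n => {x | ∃ t ∈ (Finset.univ : Finset R), x ∈ Z t n} :=
    not_lg.2 ⟨_, (eventually_all.2 hb).mono fun n p => col_biUnion _ (fun t => Z t n)
      (Finset.univ.sup b) fun t ht => (p t).mono le_rfl (Finset.le_sup ht)⟩
  exact (h.diff this).mono fun n x hx => ⟨hx.1, fun t e => hx.2 ⟨t, Finset.mem_univ _, e⟩⟩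

lemma lg_choice {D : Type} [Nonempty D] (F : ℕ → D → Set V)
    (h : ∀ b, ∀ᶠ n in (hyperfilter ℕ : Filter ℕ), ∃ d, ¬ Col (G n) (F n d) b) :
    ∃ d : ℕ → D, Lg G fun n => F n (d n) := by
  classical
  let B : ℕ → ℕ := fun n => Nat.findGreatest (fun b => ∃ d, ¬ Col (G n) (F n d) b) n
  have : ∀ n, ∃ d, (∃ d, ¬ Col (G n) (F n d) (B n)) → ¬ Col (G n) (F n d) (B n) := fun n => by
    by_cases e : ∃ d, ¬ Col (G n) (F n d) (B n)
    · exact ⟨e.choose, fun _ => e.choose_spec⟩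
    · exact ⟨Classical.arbitrary D, fun p => (e p).elim⟩
  choose d hd using this
  refine ⟨d, fun b => ?_⟩
  have t : ∀ᶠ n in (hyperfilter ℕ : Filter ℕ), b ≤ n :=
    Nat.hyperfilter_le_atTop (eventually_ge_atTop b)
  refine ((h b).and t).mono fun n p q => ?_
  exact hd n (Nat.findGreatest_spec (P := fun b => ∃ d, ¬ Col (G n) (F n d) b) p.2 p.1)
    (q.mono le_rfl (Nat.le_findGreatest p.2 p.1))

lemma unif {D : Type} [Nonempty D] (F : ℕ → D → Set V)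
    (h : ∀ d : ℕ → D, ¬ Lg G fun n => F n (d n)) :
    ∃ b, ∀ᶠ n in (hyperfilter ℕ : Filter ℕ), ∀ d, Col (G n) (F n d) b := by
  by_contra q
  obtain ⟨d, hd⟩ := lg_choice (G := G) F fun b => by
    have := not_exists.1 q b
    rw [← Ultrafilter.eventually_not] at this
    exact this.mono fun n p => not_forall.1 p
  exact h d hd
end

structure Env (V ι : Type) where
  G : ℕ → SimpleGraph V
  r : ℕ → ι → V → V → Prop
  I : ℕ → Set ι
  k : ℕ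
  σ : ℕ
  τ : ℕ
  M : ℕ

structure Env.Ok (E : Env V ι) (U : ℕ → Set V) : Prop where
  fin : ∀ n, (U n).Finite
  tr : ∀ n, Tr (E.r n) (E.I n) (U n)
  wd : ∀ n, Wd (E.G n) (E.r n) (E.I n) (U n) (E.k + 1)
  si : ∀ n, SI (E.G n) (E.r n) (E.I n) (U n) E.M
  nb : ∀ n, ∀ v ∈ U n, Col (E.G n) {x | x ∈ U n ∧ (E.G n).Adj x v} E.τ
  ih : ∀ n (r' : ι → V → V → Prop) (I' : Set ι) (X' : Set V), X' ⊆ U n → Tr r' I' X' →
    Wd (E.G n) r' I' X' E.k → Col (E.G n) X' E.σ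

variable {E : Env V ι} {U X : ℕ → Set V}

lemma Env.Ok.mono (h : E.Ok U) (s : ∀ n, X n ⊆ U n) : E.Ok X :=
  ⟨fun n => (h.fin n).subset (s n), fun n => (h.tr n).mono (s n), fun n => (h.wd n).mono (s n),
    fun n => (h.si n).mono (s n),
    fun n v hv => (h.nb n v (s n hv)).mono (fun x hx => ⟨s n hx.1, hx.2⟩) le_rfl,
    fun n r' I' X' a => h.ih n r' I' X' (a.trans (s n))⟩

lemma Env.Ok.near (h : E.Ok U) (v : ℕ → V) :
    ¬ Lg E.G fun n => {x | x ∈ U n ∧ v n ∈ U n ∧ ¬ Far (E.G n) x (v n)} := by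
  refine small_of_col (b := E.τ + 1) fun n => ?_
  by_cases e : v n ∈ U n
  · refine ((h.nb n _ e).union (col_single (v n))).mono (fun x hx => ?_) le_rfl
    by_cases p : (E.G n).Adj x (v n)
    · exact Or.inl ⟨hx.1, p⟩
    · exact Or.inr (not_not.1 fun q => hx.2.2 ⟨p, q⟩)
  · exact (col_empty _).mono (fun x hx => (e hx.2.1).elim) le_rfl

theorem core [Nonempty V] (hE : E.Ok U) {R : Type} [Finite R] (H : ℕ → Set V) (hX : Lg E.G X)
    (h1 : ∀ n, ∀ x ∈ X n, x ∈ U n ∧ H n ⊆ U n ∧ Conn (E.G n) (H n) ∧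
      (∃ u ∈ H n, ∃ v ∈ H n, u ≠ v) ∧ ∀ h ∈ H n, Far (E.G n) x h)
    (P : R → Prop) (y o : R → ℕ → V → V) (D : R → ℕ → Set V)
    (h2 : ∀ t, P t → ∀ n, ∀ x ∈ X n, y t n x ∈ U n ∧ (y t n x = x ∨ (E.G n).Adj x (y t n x)) ∧
      o t n x ∈ U n ∧ o t n x ∈ D t n ∧ (E.G n).Adj (y t n x) (o t n x))
    (h3 : ∀ t, P t → ∀ c : ℕ → V,
      ¬ Lg E.G fun n => {x | x ∈ X n ∧ c n ∈ D t n ∧ (E.G n).Adj (y t n x) (c n)}) :
    ∃ n, ∃ x ∈ X n, ∃ i ∈ E.I n, (∀ h ∈ H n, ¬ E.r n i x h) ∧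
      ∀ t, P t → E.r n i x (o t n x) := by
  classical
  have := Fintype.ofFinite R
  by_contra q
  have : ∀ t, ∃ b, ∀ᶠ n in (hyperfilter ℕ : Filter ℕ), P t → ∀ c,
      Col (E.G n) {x | x ∈ X n ∧ c ∈ D t n ∧ (E.G n).Adj (y t n x) c} b := fun t => by
    by_cases p : P t
    · obtain ⟨b, hb⟩ := unif (G := E.G)
        (fun n c => {x | x ∈ X n ∧ c ∈ D t n ∧ (E.G n).Adj (y t n x) c}) (h3 t p)
      exact ⟨b, hb.mono fun n a _ => a⟩
    · exact ⟨0, Eventually.of_forall fun n a => (p a).elim⟩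
  choose b hb using this
  refine not_lg.2 ⟨((Finset.univ : Finset R).card * (E.M * Finset.univ.sup b + E.M * E.τ)) * E.σ,
    (eventually_all.2 hb).mono fun n p => ?_⟩ hX
  by_cases e : X n = ∅
  · rw [e]; exact col_empty _
  obtain ⟨x0, hx0⟩ := Set.nonempty_iff_ne_empty.2 e
  obtain ⟨-, a1, a2, a3, -⟩ := h1 n x0 hx0
  have ev := (hE.tr n).eqv
  refine loc (hE.tr n) (hE.wd n) (hE.ih n) a1 a2 a3 (fun x hx => (h1 n x hx).1)
    (fun x hx => (h1 n x hx).2.2.2.2) fun i hi a ha => ?_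
  refine (col_biUnion Finset.univ (fun t => {x | x ∈ X n ∧ P t ∧ E.r n i a x ∧
    ¬ E.r n i x (o t n x)}) _ fun t ht => ?_).mono (fun x hx => ?_) le_rfl
  · by_cases pt : P t
    swap
    · exact (col_empty _).mono (fun x hx => (pt hx.2.1).elim) le_rfl
    have d1 := dom (hE.fin n) ev (hE.si n) hi a (y t n) (D t n)
      (fun x hx => (h2 t pt n x hx).1) fun c => (p t pt c).mono le_rfl (Finset.le_sup (f := b) ht)
    have d2 := dom (X := X n) (b := E.τ) (hE.fin n) ev (hE.si n) hi a id (U n)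
      (fun x hx => (h1 n x hx).1) fun c => by
        by_cases hc : c ∈ U n
        · exact (hE.nb n c hc).mono (fun x hx => ⟨(h1 n x hx.1).1, hx.2.2⟩) le_rfl
        · exact (col_empty _).mono (fun x hx => (hc hx.2.1).elim) le_rfl
    refine (d1.union d2).mono (fun x hx => ?_) le_rfl
    obtain ⟨x1, -, x2, x3⟩ := hx
    obtain ⟨b1, b2, b3, b4, b5⟩ := h2 t pt n x x1
    by_cases z : E.r n i a (y t n x)
    · exact Or.inl ⟨x1, z, _, b4, b3, fun w => x3 ((ev i).trans ((ev i).symm x2) w), b5⟩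
    · rcases b2 with b2 | b2
      · exact (z (b2.symm ▸ x2)).elim
      · exact Or.inr ⟨x1, x2, _, b1, b1, z, b2⟩
  · by_contra w
    refine q ⟨n, x, hx.1, i, hi, fun h hh z => ha h hh ((ev i).trans hx.2 z), fun t pt => ?_⟩
    by_contra z
    exact w ⟨t, Finset.mem_univ _, hx.1, pt, hx.2, z⟩

theorem init [Nonempty V] (hE : E.Ok U) (hX : Lg E.G U) : ∃ H L : ℕ → Set V, Lg E.G L ∧
    ∀ n, ∀ x ∈ L n, (x ∈ U n ∧ H n ⊆ U n ∧ Conn (E.G n) (H n) ∧ (∃ u ∈ H n, ∃ v ∈ H n, u ≠ v) ∧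
      ∀ h ∈ H n, Far (E.G n) x h) ∧
      ∃ y ∈ U n, ∃ h ∈ H n, (E.G n).Adj x y ∧ (E.G n).Adj y h := by
  let F : ℕ → Set V → Set V := fun n H => {x | x ∈ U n ∧ H ⊆ U n ∧ Conn (E.G n) H ∧
    (∀ h ∈ H, Far (E.G n) x h) ∧ ∃ y ∈ U n, ∃ h ∈ H, (E.G n).Adj x y ∧ (E.G n).Adj y h}
  obtain ⟨H, hH⟩ := lg_choice (G := E.G) F fun b => (hX ((b + E.τ + 1) + (b + E.τ + 1))).mono
    fun n p => by
      by_contra q
      push Not at q
      exact p (layers (by omega) (fun v hv => (hE.nb n v hv).mono le_rfl (by omega))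
        fun H L a _ c d e => (q H).mono (fun x hx => ⟨d hx, a, c, e x hx⟩) (by omega))
  have : ∀ n, ∃ y, (∃ x, x ∈ F n (H n)) → y ∈ U n ∧ y ∉ H n ∧ ∃ h ∈ H n, (E.G n).Adj y h := by
    intro n
    by_cases e : ∃ x, x ∈ F n (H n)
    · obtain ⟨x, -, -, -, f, y, hy, h, hh, a, b⟩ := e
      exact ⟨y, fun _ => ⟨hy, fun t => (f y t).1 a, h, hh, b⟩⟩
    · exact ⟨Classical.arbitrary V, fun p => (e p).elim⟩
  choose y hy using this
  refine ⟨fun n => insert (y n) (H n), _, hH.diff (hE.near y), fun n x hx => ?_⟩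
  obtain ⟨y1, y2, h, hh, y3⟩ := hy n ⟨x, hx.1⟩
  obtain ⟨⟨x1, x2, x3, x4, z, hz, g, hg, x5⟩, x6⟩ := hx
  refine ⟨⟨x1, Set.insert_subset y1 x2, x3.insert hh (Or.inl y3),
    ⟨_, Or.inl rfl, h, Or.inr hh, y3.ne⟩, ?_⟩, z, hz, g, Or.inr hg, x5⟩
  rintro v (rfl | hv)
  · exact not_not.1 fun t => x6 ⟨x1, y1, t⟩
  · exact x4 v hv

def Cpl (G : SimpleGraph V) (K : ℕ → V) (m : ℕ) (y : V) : Prop := ∀ b < m, G.Adj y (K b)

abbrev Tp (V : Type) := SimpleGraph V → (ℕ → V) → V → (ℕ → V) → Prop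

def Blk (ξ p : ℕ) (T : Tp V) (G : SimpleGraph V) (W : Set V) (K : ℕ → V) : Set V :=
  {x | x ∈ W ∧ (∀ b < ξ, K b ∈ W ∧ Far G x (K b)) ∧ Clq G K ξ ∧
    ∃ Q : ℕ → V, (∀ a < p, Q a ∈ W) ∧ T G K x Q}

def TS (ξ s : ℕ) : Tp V := fun G K x Q => Clq G Q s ∧ ∀ a < s, Cpl G K ξ (Q a) ∧ G.Adj x (Q a)

def TW (ξ s : ℕ) : Tp V := fun G K x Q =>
  Clq G Q (s + 1) ∧ (∀ a < s + 1, Cpl G K ξ (Q a)) ∧ G.Adj x (Q s)

def Has (E : Env V ι) (U : ℕ → Set V) (ξ p : ℕ) (T : Tp V) : Prop :=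
  ∀ X : ℕ → Set V, (∀ n, X n ⊆ U n) → Lg E.G X →
    ∃ K : ℕ → ℕ → V, Lg E.G fun n => Blk ξ p T (E.G n) (X n) (K n)

def NoL (E : Env V ι) (U : ℕ → Set V) (ξ p : ℕ) (T : Tp V) : Prop :=
  ∀ K : ℕ → ℕ → V, ¬ Lg E.G fun n => Blk ξ p T (E.G n) (U n) (K n)

lemma Has.mono {ξ p : ℕ} {T : Tp V} (h : Has E U ξ p T) (s : ∀ n, X n ⊆ U n) : Has E X ξ p T :=
  fun Y a => h Y fun n => (a n).trans (s n)

lemma NoL.mono {ξ p : ℕ} {T : Tp V} (h : NoL E U ξ p T) (s : ∀ n, X n ⊆ U n) : NoL E X ξ p T :=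
  fun K a => h K (a.mono fun n x ⟨a, b, c, Q, d, e⟩ =>
    ⟨s n a, fun t ht => ⟨s n (b t ht).1, (b t ht).2⟩, c, Q, fun t ht => s n (d t ht), e⟩)

lemma not_has {ξ p : ℕ} {T : Tp V} (h : ¬ Has E U ξ p T) :
    ∃ X : ℕ → Set V, (∀ n, X n ⊆ U n) ∧ Lg E.G X ∧ NoL E X ξ p T := by
  unfold Has at h
  push Not at h
  exact h

theorem has11 [Nonempty V] (hE : E.Ok U) : Has E U 1 1 (TS 1 1) := by
  intro X s hX
  obtain ⟨H, L, hL, h⟩ := init (hE.mono s) hX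
  have : ∀ n x, ∃ y g : V, x ∈ L n → y ∈ X n ∧ g ∈ H n ∧ (E.G n).Adj x y ∧ (E.G n).Adj y g := by
    intro n x
    by_cases e : x ∈ L n
    · obtain ⟨y, a, g, b, c⟩ := (h n x e).2
      exact ⟨y, g, fun _ => ⟨a, b, c⟩⟩
    · exact ⟨x, x, fun p => (e p).elim⟩
  choose y g hy using this
  by_contra q
  obtain ⟨n, x, hx, i, -, a, b⟩ := core (hE.mono s) (R := Unit) H hL (fun n x hx => (h n x hx).1)
    (fun _ => True) (fun _ => y) (fun _ => g) (fun _ => H)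
    (fun _ _ n x hx => ⟨(hy n x hx).1, Or.inr (hy n x hx).2.2.1, (h n x hx).1.2.1 (hy n x hx).2.1,
      (hy n x hx).2.1, (hy n x hx).2.2.2⟩)
    fun _ _ c hc => q ⟨fun n _ => c n, hc.mono fun n x ⟨x1, x2, x3⟩ =>
      ⟨(h n x x1).1.1, fun _ _ => ⟨(h n x x1).1.2.1 x2, (h n x x1).1.2.2.2.2 _ x2⟩,
        fun s hs t ht n => by omega, fun _ => y n x, fun _ _ => (hy n x x1).1,
        fun s hs t ht n => by omega, fun _ _ => ⟨fun _ _ => x3, (hy n x x1).2.2.1⟩⟩⟩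
  exact a _ (hy n x hx).2.1 (b () trivial)

end Pool.Agent.H.MP_778a07_co
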