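import Pool.Agent.H.MP_778a07_co.C

set_option autoImplicit false

namespace Pool.Agent.H.MP_778a07_co
open Filter

variable {V ι : Type} {E : Env V ι} {U : ℕ → Set V}

lemma seq_build {α : Type} [Nonempty α] (P : α → Prop) (R : α → α → Prop)
    (h : ∀ (m : ℕ) (f : ℕ → α), (∀ i < m, P (f i)) → (∀ i j, i < j → j < m → R (f i) (f j)) →
      ∃ y, P y ∧ ∀ i < m, R (f i) y) (m : ℕ) :
    ∃ f : ℕ → α, (∀ i < m, P (f i)) ∧ ∀ i j, i < j → j < m → R (f i) (f j) := by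
  induction m with
  | zero => exact ⟨fun _ => Classical.arbitrary α, by simp, by simp⟩
  | succ m ih =>
    obtain ⟨f, a, b⟩ := ih
    obtain ⟨y, c, d⟩ := h m f a b
    refine ⟨Function.update f m y, fun i hi => ?_, fun i j l hj => ?_⟩
    · by_cases e : i = m
      · subst e; rwa [Function.update_self]
      · rw [Function.update_of_ne e]; exact a i (by omega)
    · rw [Function.update_of_ne (show i ≠ m by omega)]
      by_cases e : j = m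
      · subst e; rw [Function.update_self]; exact d i l
      · rw [Function.update_of_ne e]; exact b i j l (by omega)

structure Dt (V : Type) where
  K : ℕ → ℕ → V
  Q : ℕ → V → ℕ → V
  X : ℕ → Set V
  H : ℕ → Set V

def Gd (E : Env V ι) (U : ℕ → Set V) (X H : ℕ → Set V) : Prop :=
  ∀ n, ∀ x ∈ X n, x ∈ U n ∧ H n ⊆ U n ∧ Conn (E.G n) (H n) ∧ (∃ u ∈ H n, ∃ v ∈ H n, u ≠ v) ∧
    ∀ h ∈ H n, Far (E.G n) x h

def Cap (E : Env V ι) (ξ : ℕ) (K : ℕ → ℕ → V) (y : ℕ → V → V) (X H : ℕ → Set V) : Prop :=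
  ∃ c : ℕ → V, ∀ n, ∀ x ∈ X n, c n ∈ H n ∧ Cpl (E.G n) (K n) ξ (c n) ∧ (E.G n).Adj (y n x) (c n)

def Unc (E : Env V ι) (U : ℕ → Set V) (ξ : ℕ) (K : ℕ → ℕ → V) (y : ℕ → V → V)
    (X : ℕ → Set V) : Prop :=
  ∀ c : ℕ → V, ¬ Lg E.G fun n =>
    {x | x ∈ X n ∧ c n ∈ {c | c ∈ U n ∧ Cpl (E.G n) (K n) ξ c} ∧ (E.G n).Adj (y n x) (c n)}

lemma capture (hE : E.Ok U) (ξ : ℕ) (K : ℕ → ℕ → ℕ → V) (y : ℕ → V → V) (X H : ℕ → Set V)
    (hX : Lg E.G X) (hG : Gd E U X H) (m : ℕ) (hK : ∀ i < m, ∀ n, ∀ x ∈ X n, K i n 0 ∈ H n) :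
    ∃ X' H' : ℕ → Set V, Lg E.G X' ∧ Gd E U X' H' ∧ (∀ n, X' n ⊆ X n ∧ H n ⊆ H' n) ∧
      ∀ i < m, Cap E (ξ + 1) (K i) y X' H' ∨ Unc E U (ξ + 1) (K i) y X' := by
  induction m with
  | zero => exact ⟨X, H, hX, hG, fun n => ⟨le_rfl, le_rfl⟩, by simp⟩
  | succ m ih =>
    obtain ⟨X', H', a, b, c, d⟩ := ih fun i hi => hK i (by omega)
    by_cases u : Unc E U (ξ + 1) (K m) y X'
    · refine ⟨X', H', a, b, c, fun i hi => ?_⟩
      by_cases e : i = m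
      · exact Or.inr (e ▸ u)
      · exact d i (by omega)
    unfold Unc at u
    push Not at u
    obtain ⟨v, hv⟩ := u
    refine ⟨_, fun n => insert (v n) (H' n), hv.diff (hE.near v), fun n x hx => ?_,
      fun n => ⟨fun x hx => (c n).1 hx.1.1, (c n).2.trans (Set.subset_insert _ _)⟩, fun i hi => ?_⟩
    · obtain ⟨⟨x1, ⟨x2, x3⟩, x4⟩, x5⟩ := hx
      obtain ⟨b1, b2, b3, ⟨p, hp, q, hq, b4⟩, b5⟩ := b n x x1
      refine ⟨b1, Set.insert_subset x2 b2,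
        b3.insert ((c n).2 (hK m (by omega) n x ((c n).1 x1))) (Or.inl (x3 0 (by omega))),
        ⟨p, Or.inr hp, q, Or.inr hq, b4⟩, ?_⟩
      rintro h (rfl | hh)
      · exact not_not.1 fun t => x5 ⟨b1, x2, t⟩
      · exact b5 h hh
    · by_cases e : i = m
      · subst e
        exact Or.inl ⟨v, fun n x hx => ⟨Or.inl rfl, hx.1.2.1.2, hx.1.2.2⟩⟩
      · rcases d i (by omega) with ⟨w, hw⟩ | t
        · exact Or.inl ⟨w, fun n x hx => ⟨Or.inr (hw n x hx.1.1).1, (hw n x hx.1.1).2⟩⟩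
        · exact Or.inr fun w z => t w (z.mono fun n x hx => ⟨hx.1.1.1, hx.2⟩)

def PD (E : Env V ι) (U : ℕ → Set V) (ξ p : ℕ) (T : Tp V) (Ex : ℕ → (ℕ → V) → Set V)
    (d : Dt V) : Prop :=
  Lg E.G d.X ∧ Gd E U d.X d.H ∧ ∀ n, ∀ x ∈ d.X n, (∀ b < ξ, d.K n b ∈ d.H n) ∧
    Clq (E.G n) (d.K n) ξ ∧ (∀ a < p, d.Q n x a ∈ U n) ∧ T (E.G n) (d.K n) x (d.Q n x) ∧
    x ∉ Ex n (d.K n)

def RD (E : Env V ι) (U : ℕ → Set V) (ξ p e : ℕ) (d d' : Dt V) : Prop :=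
  (∀ n, ∀ x ∈ d'.X n, x ∈ d.X n ∧ d.H n ⊆ d'.H n ∧ (∀ b < ξ, d'.K n b ∈ d.X n) ∧
    ∀ a < p, d'.Q n x a ∈ d.X n) ∧
  (Cap E ξ d.K (fun n x => d'.Q n x e) d'.X d'.H ∨ Unc E U ξ d.K (fun n x => d'.Q n x e) d'.X)

theorem build [Nonempty V] (hE : E.Ok U) (hU : Lg E.G U) (ξ p e : ℕ) (T : Tp V)
    (hT : Has E U (ξ + 1) p T) (Ex : ℕ → (ℕ → V) → Set V)
    (hx : ∀ K : ℕ → ℕ → V, ¬ Lg E.G fun n => Ex n (K n)) (m : ℕ) :
    ∃ f : ℕ → Dt V, (∀ i < m, PD E U (ξ + 1) p T Ex (f i)) ∧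
      ∀ i j, i < j → j < m → RD E U (ξ + 1) p e (f i) (f j) := by
  classical
  obtain ⟨H0, X0, h0, g0⟩ := init hE hU
  have v0 : V := Classical.arbitrary V
  have : Nonempty (Dt V) := ⟨⟨fun _ _ => v0, fun _ _ _ => v0, X0, H0⟩⟩
  suffices h : ∃ f : ℕ → Dt V, (∀ i < m, PD E U (ξ + 1) p T Ex (f i) ∧
      ∀ n, ∀ x ∈ (f i).X n, x ∈ X0 n ∧ H0 n ⊆ (f i).H n) ∧
      ∀ i j, i < j → j < m → RD E U (ξ + 1) p e (f i) (f j) by
    obtain ⟨f, a, b⟩ := h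
    exact ⟨f, fun i hi => (a i hi).1, b⟩
  refine seq_build (fun d => PD E U (ξ + 1) p T Ex d ∧ ∀ n, ∀ x ∈ d.X n, x ∈ X0 n ∧ H0 n ⊆ d.H n)
    _ (fun m f fa fb => ?_) m
  obtain ⟨X, H, hX, hG, h1, h2⟩ : ∃ X H : ℕ → Set V, Lg E.G X ∧ Gd E U X H ∧
      (∀ n, ∀ x ∈ X n, x ∈ X0 n ∧ H0 n ⊆ H n) ∧
      ∀ i < m, ∀ n, ∀ x ∈ X n, x ∈ (f i).X n ∧ (f i).H n ⊆ H n := by
    cases m with
    | zero => exact ⟨X0, H0, h0, fun n x hx => (g0 n x hx).1, fun n x hx => ⟨hx, le_rfl⟩, by simp⟩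
    | succ m =>
      obtain ⟨a, b⟩ := fa m (by omega)
      refine ⟨(f m).X, (f m).H, a.1, a.2.1, b, fun i hi n x hx => ?_⟩
      by_cases q : i = m
      · subst q; exact ⟨hx, le_rfl⟩
      · have := (fb i m (by omega) (by omega)).1 n x hx
        exact ⟨this.1, this.2.1⟩
  obtain ⟨K, hK⟩ := hT X (fun n x hx => (hG n x hx).1) hX
  have : ∀ n x, ∃ Q : ℕ → V, x ∈ Blk (ξ + 1) p T (E.G n) (X n) (K n) →
      (∀ a < p, Q a ∈ X n) ∧ T (E.G n) (K n) x Q := fun n x => by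
    by_cases q : x ∈ Blk (ξ + 1) p T (E.G n) (X n) (K n)
    · obtain ⟨Q, hQ⟩ := q.2.2.2
      exact ⟨Q, fun _ => hQ⟩
    · exact ⟨fun _ => x, fun t => (q t).elim⟩
  choose Q hQ using this
  have : ∀ n, ∃ y, K n 0 ∈ X n → y ∈ U n ∧ (E.G n).Adj (K n 0) y ∧
      ∃ h ∈ H n, (E.G n).Adj y h := fun n => by
    by_cases q : K n 0 ∈ X n
    · obtain ⟨y, a, h, b, c, d⟩ := (g0 n _ (h1 n _ q).1).2
      exact ⟨y, fun _ => ⟨a, c, h, (h1 n _ q).2 b, d⟩⟩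
    · exact ⟨v0, fun t => (q t).elim⟩
  choose y hy using this
  let H1 : ℕ → Set V := fun n =>
    insert (K n 0) (insert (y n) (H n)) ∪ {v | ∃ b < ξ + 1, K n b = v}
  have s1 : ∀ n, H n ⊆ H1 n := fun n v hv => Or.inl (Or.inr (Or.inr hv))
  obtain ⟨X', H', a, b, c, d⟩ := capture hE ξ (fun i => (f i).K) (fun n x => Q n x e) _ H1
    ((hK.diff (hE.near y)).diff (hx K)) (fun n x hx => by
      obtain ⟨⟨⟨x1, x2, x3, -⟩, x4⟩, -⟩ := hx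
      obtain ⟨b1, b2, b3, ⟨p, hp, q, hq, b4⟩, b5⟩ := hG n x x1
      obtain ⟨y1, y2, h, hh, y3⟩ := hy n (x2 0 (by omega)).1
      have kU : ∀ b < ξ + 1, K n b ∈ U n := fun b hb => (hG n _ (x2 b hb).1).1
      refine ⟨b1, ?_, ?_, ⟨p, s1 n hp, q, s1 n hq, b4⟩, ?_⟩
      · rintro v ((rfl | rfl | hv) | ⟨b, hb, rfl⟩)
        exacts [kU 0 (by omega), y1, b2 hv, kU b hb]
      · refine ((b3.insert hh (Or.inl y3)).insert (Or.inl rfl) (Or.inl y2)).union ?_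
        rintro v ⟨b, hb, rfl⟩
        refine ⟨K n 0, Or.inl rfl, ?_⟩
        by_cases z : b = 0
        · exact Or.inr (z ▸ rfl)
        · exact Or.inl (x3 b hb 0 (by omega) z)
      · rintro v ((rfl | rfl | hv) | ⟨b, hb, rfl⟩)
        exacts [(x2 0 (by omega)).2, not_not.1 fun t => x4 ⟨b1, y1, t⟩, b5 v hv, (x2 b hb).2])
    m fun i hi n x hx => by
      have := h2 i hi n x hx.1.1.1
      exact s1 n (this.2 (((fa i hi).1.2.2 n x this.1).1 0 (by omega)))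
  refine ⟨⟨K, Q, X', H'⟩, ⟨⟨a, b, fun n x hx => ?_⟩, fun n x hx => ?_⟩, fun i hi =>
    ⟨fun n x hx => ?_, d i hi⟩⟩
  · obtain ⟨⟨x1, -⟩, x2⟩ := (c n).1 hx
    exact ⟨fun b hb => (c n).2 (Or.inr ⟨b, hb, rfl⟩), x1.2.2.1,
      fun a ha => (hG n _ ((hQ n x x1).1 a ha)).1, (hQ n x x1).2, x2⟩
  · have := h1 n x ((c n).1 hx).1.1.1
    exact ⟨this.1, this.2.trans ((s1 n).trans (c n).2)⟩
  · obtain ⟨⟨x1, -⟩, -⟩ := (c n).1 hx
    have := h2 i hi n x x1.1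
    exact ⟨this.1, this.2.trans ((s1 n).trans (c n).2),
      fun b hb => (h2 i hi n _ (x1.2.1 b hb).1).1, fun a ha => (h2 i hi n _ ((hQ n x x1).1 a ha)).1⟩

end Pool.Agent.H.MP_778a07_co
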