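import Pool.Agent.H.MP_778a07_co.D

set_option autoImplicit false

namespace Pool.Agent.H.MP_778a07_co
open Filter

variable {V ι : Type} {E : Env V ι} {U : ℕ → Set V}

lemma small_ext (hE : E.Ok U) {m : ℕ} (hN : NoL E U (m + 1) 1 (TS (m + 1) 1)) (K : ℕ → ℕ → V)
    (c : ℕ → V) (y : ℕ → V → V) : ¬ Lg E.G fun n => {x | x ∈ U n ∧
      (∀ b < m, K n b ∈ U n ∧ Far (E.G n) x (K n b)) ∧ Clq (E.G n) (K n) m ∧ c n ∈ U n ∧
      Cpl (E.G n) (K n) m (c n) ∧ y n x ∈ U n ∧ (E.G n).Adj x (y n x) ∧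
      Cpl (E.G n) (K n) m (y n x) ∧ (E.G n).Adj (y n x) (c n)} := by
  intro h
  refine hN (fun n => Function.update (K n) m (c n)) ((h.diff (hE.near c)).mono fun n x hx => ?_)
  obtain ⟨⟨a1, a2, a3, a4, a5, a6, a7, a8, a9⟩, b⟩ := hx
  exact ⟨a1, snoc_all (P := fun v => v ∈ U n ∧ Far (E.G n) x v) a2
    ⟨a4, not_not.1 fun t => b ⟨a1, a4, t⟩⟩, a3.snoc a5, fun _ => y n x, fun _ _ => a6,
    fun s hs t ht n => by omega,
    fun _ _ => ⟨snoc_all (P := fun v => (E.G n).Adj (y n x) v) a8 a9, a7⟩⟩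

lemma fin_si (hE : E.Ok U) {n : ℕ} {i : ι} (hi : i ∈ E.I n) {H : Set V} (hH : H ⊆ U n) {x : V}
    (hx : ∀ h ∈ H, ¬ E.r n i x h) (o w : ℕ → V)
    (h1 : ∀ t < E.M, o t ∈ U n ∧ w t ∈ H ∧ (E.G n).Adj (o t) (w t) ∧ E.r n i x (o t))
    (h2 : ∀ s t, s < t → t < E.M → ¬ (E.G n).Adj (o s) (w t) ∧ ¬ (E.G n).Adj (o t) (w s)) :
    False := by
  refine hE.si n i hi o w (fun t ht => ?_) fun s hs t ht ne => ?_
  · obtain ⟨a, b, c, d⟩ := h1 t ht
    exact ⟨a, hH b, c, fun e => hx _ b (((hE.tr n).eqv i).trans d e)⟩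
  · rcases lt_or_gt_of_ne ne with l | l
    exacts [(h2 s t l ht).1, (h2 t s l hs).2]

lemma dn {ξ p e m : ℕ} {f : ℕ → Dt V} (h : ∀ i j, i < j → j < m → RD E U ξ p e (f i) (f j))
    {i j : ℕ} (l : i ≤ j) (hj : j < m) {n : ℕ} {x : V} (hx : x ∈ (f j).X n) :
    x ∈ (f i).X n ∧ (f i).H n ⊆ (f j).H n := by
  rcases l.eq_or_lt with rfl | l
  · exact ⟨hx, le_rfl⟩
  · have := (h i j l hj).1 n x hx
    exact ⟨this.1, this.2.1⟩

lemma Env.Ok.nbr (hE : E.Ok U) {X : ℕ → Set V} (s : ∀ n, X n ⊆ U n) (c : ℕ → V) :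
    ¬ Lg E.G fun n => {x | x ∈ X n ∧ c n ∈ U n ∧ (E.G n).Adj x (c n)} := fun h =>
  hE.near c (h.mono fun n x hx => ⟨s n hx.1, hx.2.1, fun t => t.1 hx.2.2⟩)

theorem case1 [Nonempty V] (hE : E.Ok U) (hU : Lg E.G U) {ξ s : ℕ}
    (hT : Has E U (ξ + 1) (s + 1) (TW (ξ + 1) s))
    (h1 : NoL E U (ξ + 1 + 1) 1 (TS (ξ + 1 + 1) 1))
    (h2 : NoL E U (ξ + 1) (s + 1) (TS (ξ + 1) (s + 1))) : False := by
  obtain ⟨N, hN⟩ := ramsey (Fin (s + 1)) E.M
  obtain ⟨f, fa, fb⟩ := build hE hU ξ (s + 1) s _ hT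
    (fun n K => Blk (ξ + 1) (s + 1) (TS (ξ + 1) (s + 1)) (E.G n) (U n) K) h2 (N + 1)
  have dd : ∀ j < N + 1, ∀ n, ∀ x ∈ (f N).X n, x ∈ (f j).X n ∧ (f j).H n ⊆ (f N).H n :=
    fun j hj n x hx => dn fb (by omega) (by omega) hx
  have gN := (fa N (by omega)).2.1
  obtain ⟨n, x, hx, i, hi, a, b⟩ := core hE (R := Fin (N + 1) ⊕ (Fin (N + 1) × Fin s)) (f N).H
    (fa N (by omega)).1 gN (fun _ => True)
    (Sum.elim (fun _ _ x => x) fun p n x => (f p.1).Q n x s)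
    (Sum.elim (fun j n x => (f j).Q n x s) fun p n x => (f p.1).Q n x p.2)
    (Sum.elim (fun _ => U) fun p n => {c | c ∈ U n ∧ Cpl (E.G n) ((f p.1).K n) (ξ + 1) c})
    (by
      rintro (j | ⟨j, a⟩) - n x hx
      · obtain ⟨-, -, p, q, -⟩ := (fa j j.2).2.2 n x (dd j j.2 n x hx).1
        exact ⟨(gN n x hx).1, Or.inl rfl, p s (by omega), p s (by omega), q.2.2⟩
      · obtain ⟨-, -, p, q, -⟩ := (fa j j.2).2.2 n x (dd j j.2 n x hx).1
        have := a.2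
        exact ⟨p s (by omega), Or.inr q.2.2, p a (by omega), ⟨p a (by omega), q.2.1 a (by omega)⟩,
          q.1 s (by omega) a (by omega) (by omega)⟩)
    (by
      rintro (j | ⟨j, a⟩) - c
      · exact hE.nbr (fun n x hx => (gN n x hx).1) c
      · refine fun h => small_ext hE h1 (f j).K c (fun n x => (f j).Q n x s)
          (h.mono fun n x hx => ?_)
        have d := dd j j.2 n x hx.1
        obtain ⟨u, v, p, q, -⟩ := (fa j j.2).2.2 n x d.1
        obtain ⟨g1, g2, -, -, g3⟩ := (fa j j.2).2.1 n x d.1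
        exact ⟨g1, fun b hb => ⟨g2 (u b hb), g3 _ (u b hb)⟩, v, hx.2.1.1, hx.2.1.2, p s (by omega),
          q.2.2, q.2.1 s (by omega), hx.2.2⟩)
  have b' : ∀ j < N + 1, ∀ a < s + 1, E.r n i x ((f j).Q n x a) := fun j hj a ha => by
    by_cases e : a = s
    · exact e ▸ b (Sum.inl ⟨j, hj⟩) trivial
    · exact b (Sum.inr (⟨j, hj⟩, ⟨a, by omega⟩)) trivial
  obtain ⟨g, c, g1, g2, g3⟩ := hN (fun j l c => ¬ (E.G n).Adj ((f j).Q n x c) ((f l).K n 0))
    fun j l jl hl => by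
      by_contra q
      push Not at q
      have z := ((fb j l jl (by omega)).1 n x (dd l (by omega) n x hx).1).2.2.1 0 (by omega)
      obtain ⟨u, v, -, -, w⟩ := (fa j (by omega)).2.2 n _ z
      obtain ⟨g1, g2, -, -, g3⟩ := (fa j (by omega)).2.1 n _ z
      obtain ⟨-, -, p, t, -⟩ := (fa j (by omega)).2.2 n x (dd j (by omega) n x hx).1
      exact w ⟨g1, fun b hb => ⟨g2 (u b hb), g3 _ (u b hb)⟩, v, (f j).Q n x, p, t.1,
        fun a ha => ⟨t.2.1 a ha, (q ⟨a, ha⟩).symm⟩⟩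
  refine fin_si hE hi (gN n x hx).2.1 a (fun t => (f (g t)).Q n x c) (fun t => (f (g t)).K n 0)
    (fun t ht => ?_) fun s t st ht => ⟨g3 s t st ht, ?_⟩
  · have := g1 t ht
    have d := dd (g t) (by omega) n x hx
    obtain ⟨u, -, p, q, -⟩ := (fa (g t) (by omega)).2.2 n x d.1
    exact ⟨p c c.2, d.2 (u 0 (by omega)), q.2.1 c c.2 0 (by omega), b' _ (by omega) c c.2⟩
  · have := g1 t ht
    have := g2 s t st ht
    have z := ((fb (g s) (g t) this (by omega)).1 n x (dd _ (by omega) n x hx).1).2.2.2 c c.2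
    exact (((fa (g s) (by omega)).2.1 n _ z).2.2.2.2 _
      (((fa (g s) (by omega)).2.2 n _ z).1 0 (by omega))).1

theorem case2 [Nonempty V] (hE : E.Ok U) (hU : Lg E.G U) {ξ s : ℕ}
    (hT : Has E U (ξ + 1) (s + 1) (TS (ξ + 1) (s + 1)))
    (h1 : NoL E U (ξ + 1 + 1) 1 (TS (ξ + 1 + 1) 1))
    (h2 : NoL E U (ξ + 1) (s + 1 + 1) (TW (ξ + 1) (s + 1))) : False := by
  classical
  obtain ⟨N', hN'⟩ := ramsey (Fin (s + 1) × Fin (ξ + 1)) E.M
  obtain ⟨N, hN⟩ := ramsey (Option (Fin (ξ + 1)) × Bool) (2 * N' + E.M + 2)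
  obtain ⟨f, fa, fb⟩ := build hE hU ξ (s + 1) 0 _ hT (fun _ _ => ∅)
    (fun _ => small_of_col fun _ => col_empty 0) (N + 1)
  have dd : ∀ j < N + 1, ∀ n, ∀ x ∈ (f N).X n, x ∈ (f j).X n ∧ (f j).H n ⊆ (f N).H n :=
    fun j hj n x hx => dn fb (by omega) (by omega) hx
  have gN := (fa N (by omega)).2.1
  have : ∀ i j, ∃ c : ℕ → V, Cap E (ξ + 1) (f i).K (fun n x => (f j).Q n x 0) (f j).X (f j).H →
      ∀ n, ∀ x ∈ (f j).X n, c n ∈ (f j).H n ∧ Cpl (E.G n) ((f i).K n) (ξ + 1) (c n) ∧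
        (E.G n).Adj ((f j).Q n x 0) (c n) := fun i j => by
    by_cases q : Cap E (ξ + 1) (f i).K (fun n x => (f j).Q n x 0) (f j).X (f j).H
    · exact ⟨q.choose, fun _ => q.choose_spec⟩
    · exact ⟨fun _ => Classical.arbitrary V, fun t => (q t).elim⟩
  choose c hc using this
  have hX := ((fa N (by omega)).1.diff_fin (R := Fin (N + 1)) _ fun p => h2 (f p).K).diff_fin
    (R := Fin (N + 1) × Fin (N + 1) × Fin (N + 1)) _
    fun p => small_ext hE h1 (f p.1).K (c p.1 p.2.1) fun n x => (f p.2.2).Q n x 0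
  obtain ⟨n, x, ⟨⟨hx, x1⟩, x2⟩, i, hi, a, b⟩ := core hE
    (R := Fin (N + 1) ⊕ (Fin (N + 1) × Fin (N + 1) × Fin (s + 1))) (f N).H hX
    (fun n x hx => gN n x hx.1.1)
    (Sum.elim (fun _ => True) fun p => p.1 < p.2.1 ∧
      Unc E U (ξ + 1) (f p.1).K (fun n x => (f p.2.1).Q n x 0) (f p.2.1).X)
    (Sum.elim (fun _ _ x => x) fun p n x => (f p.2.1).Q n x 0)
    (Sum.elim (fun j n x => (f j).Q n x 0) fun p n x => (f p.1).Q n ((f p.2.1).Q n x 0) p.2.2)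
    (Sum.elim (fun _ => U) fun p n => {c | c ∈ U n ∧ Cpl (E.G n) ((f p.1).K n) (ξ + 1) c})
    (by
      rintro (j | ⟨i, j, a⟩) pt n x hx
      · obtain ⟨-, -, p, q, -⟩ := (fa j j.2).2.2 n x (dd j j.2 n x hx.1.1).1
        exact ⟨(gN n x hx.1.1).1, Or.inl rfl, p 0 (by omega), p 0 (by omega), (q.2 0 (by omega)).2⟩
      · have d := (dd j j.2 n x hx.1.1).1
        obtain ⟨-, -, p, q, -⟩ := (fa j j.2).2.2 n x d
        have z := ((fb i j pt.1 j.2).1 n x d).2.2.2 0 (by omega)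
        obtain ⟨-, -, p', q', -⟩ := (fa i i.2).2.2 n _ z
        exact ⟨p 0 (by omega), Or.inr (q.2 0 (by omega)).2, p' a a.2, ⟨p' a a.2, (q'.2 a a.2).1⟩,
          (q'.2 a a.2).2⟩)
    (by
      rintro (j | ⟨i, j, a⟩) pt c
      · exact hE.nbr (fun n x hx => (gN n x hx.1.1).1) c
      · exact fun h => pt.2 c (h.mono fun n x hx => ⟨(dd j j.2 n x hx.1.1.1).1, hx.2⟩))
  let y : ℕ → V := fun j => (f j).Q n x 0
  let K : ℕ → ℕ → V := fun j => (f j).K n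
  have HU := (gN n x hx).2.1
  have xX : ∀ j < N + 1, x ∈ (f j).X n := fun j hj => (dd j hj n x hx).1
  have KH : ∀ j < N + 1, ∀ b < ξ + 1, K j b ∈ (f j).H n := fun j hj =>
    ((fa j hj).2.2 n x (xX j hj)).1
  have KN : ∀ j < N + 1, ∀ b < ξ + 1, K j b ∈ (f N).H n := fun j hj b hb =>
    (dd j hj n x hx).2 (KH j hj b hb)
  have Kx : ∀ j < N + 1, ∀ b < ξ + 1, K j b ∈ U n ∧ Far (E.G n) x (K j b) := fun j hj b hb =>
    ⟨HU (KN j hj b hb), (gN n x hx).2.2.2.2 _ (KN j hj b hb)⟩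
  have Kc : ∀ j < N + 1, Clq (E.G n) (K j) (ξ + 1) := fun j hj => ((fa j hj).2.2 n x (xX j hj)).2.1
  have y1 : ∀ j < N + 1, y j ∈ U n ∧ Cpl (E.G n) (K j) (ξ + 1) (y j) ∧ (E.G n).Adj x (y j) ∧
      E.r n i x (y j) := fun j hj => by
    obtain ⟨-, -, p, q, -⟩ := (fa j hj).2.2 n x (xX j hj)
    exact ⟨p 0 (by omega), (q.2 0 (by omega)).1, (q.2 0 (by omega)).2, b (Sum.inl ⟨j, hj⟩) trivial⟩
  have y2 : ∀ i j, i < j → j < N + 1 → y j ∈ (f i).X n := fun i j l hj =>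
    ((fb i j l hj).1 n x (xX j hj)).2.2.2 0 (by omega)
  have fr : ∀ i < N + 1, ∀ v ∈ (f i).X n, ∀ h ∈ (f i).H n, ¬ (E.G n).Adj v h := fun i hi v hv h hh =>
    (((fa i hi).2.1 n v hv).2.2.2.2 h hh).1
  obtain ⟨g, ⟨ob, cb⟩, g1, g2, g3⟩ := hN (fun i j c =>
    (∀ b : Fin (ξ + 1), c.1 = some b → ¬ (E.G n).Adj (y i) (K j b)) ∧
    (c.1 = none → Cpl (E.G n) (K j) (ξ + 1) (y i)) ∧
    (c.2 = true → Cap E (ξ + 1) (f i).K (fun n x => (f j).Q n x 0) (f j).X (f j).H) ∧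
    (c.2 = false → Unc E U (ξ + 1) (f i).K (fun n x => (f j).Q n x 0) (f j).X))
    fun i j l hj => by
      obtain ⟨ob, h⟩ : ∃ ob : Option (Fin (ξ + 1)),
          (∀ b : Fin (ξ + 1), ob = some b → ¬ (E.G n).Adj (y i) (K j b)) ∧
          (ob = none → Cpl (E.G n) (K j) (ξ + 1) (y i)) := by
        by_cases q : Cpl (E.G n) (K j) (ξ + 1) (y i)
        · exact ⟨none, by simp, fun _ => q⟩
        · unfold Cpl at q
          push Not at q
          obtain ⟨b, hb, q⟩ := q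
          exact ⟨some ⟨b, hb⟩, fun b e => by cases e; exact q, by simp⟩
      rcases (fb i j l (by omega)).2 with q | q
      · exact ⟨(ob, true), h.1, h.2, fun _ => q, by simp⟩
      · exact ⟨(ob, false), h.1, h.2, by simp, fun _ => q⟩
  have g4 : ∀ t < 2 * N' + E.M + 2, g t < N + 1 := fun t ht => (g1 t ht).trans (by omega)
  cases ob with
  | some b0 =>
    refine fin_si hE hi HU a (fun t => y (g t)) (fun t => K (g t) b0) (fun t ht => ?_)
      fun s t st ht => ⟨(g3 s t st (by omega)).1 b0 rfl, ?_⟩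
    · have := g4 t (by omega)
      exact ⟨(y1 _ this).1, KN _ this _ b0.2, (y1 _ this).2.1 _ b0.2, (y1 _ this).2.2.2⟩
    · exact fr _ (g4 s (by omega)) _ (y2 _ _ (g2 s t st (by omega)) (g4 t (by omega))) _
        (KH _ (g4 s (by omega)) _ b0.2)
  | none =>
    have cp : ∀ s t, s ≤ t → t < 2 * N' + E.M + 2 → Cpl (E.G n) (K (g t)) (ξ + 1) (y (g s)) :=
      fun s t l ht => by
        rcases l.eq_or_lt with rfl | l
        exacts [(y1 _ (g4 s ht)).2.1, (g3 s t l ht).2.1 rfl]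
    cases cb with
    | true =>
      have cc := fun t (ht : t + 1 < 2 * N' + E.M + 2) => hc (g t) (g (t + 1))
        ((g3 t (t + 1) (by omega) ht).2.2.1 rfl) n x (xX _ (g4 _ ht))
      refine fin_si hE hi HU a (fun t => y (g (t + 1))) (fun t => c (g t) (g (t + 1)) n)
        (fun t ht => ?_) fun s t st ht => ⟨fun e => ?_, ?_⟩
      · have := g4 (t + 1) (by omega)
        exact ⟨(y1 _ this).1, (dd _ this n x hx).2 (cc t (by omega)).1, (cc t (by omega)).2.2,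
          (y1 _ this).2.2.2⟩
      · have p1 := g4 t (by omega)
        have p2 := g4 (t + 1) (by omega)
        have p3 := g4 (s + 1) (by omega)
        exact x2 (⟨g t, p1⟩, ⟨g (t + 1), p2⟩, ⟨g (s + 1), p3⟩) ⟨(gN n x hx).1, Kx _ p1, Kc _ p1,
          HU ((dd _ p2 n x hx).2 (cc t (by omega)).1), (cc t (by omega)).2.1, (y1 _ p3).1,
          (y1 _ p3).2.2.1, cp (s + 1) t st (by omega), e⟩
      · exact fr _ (g4 (s + 1) (by omega)) _
          (y2 _ _ (g2 (s + 1) (t + 1) (by omega) (by omega)) (g4 _ (by omega))) _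
          (cc s (by omega)).1
    | false =>
      let d : ℕ → ℕ → V := fun t a => (f (g (2 * t))).Q n (y (g (2 * t + 1))) a
      have yy : ∀ t < N', y (g (2 * t + 1)) ∈ (f (g (2 * t))).X n := fun t ht =>
        y2 _ _ (g2 _ _ (by omega) (by omega)) (g4 _ (by omega))
      have d1 := fun t (ht : t < N') => (fa _ (g4 (2 * t) (by omega))).2.2 n _ (yy t ht)
      obtain ⟨u, ⟨a0, b0⟩, u1, u2, u3⟩ := hN' (fun s t c =>
        ¬ (E.G n).Adj (d s c.1) (K (g (2 * t)) c.2)) fun s' t l ht => by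
          by_contra q
          push Not at q
          have p1 := g4 (2 * t) (by omega)
          have p2 := g4 (2 * s' + 1) (by omega)
          obtain ⟨-, -, e1, e2, -⟩ := d1 s' (by omega)
          refine x1 ⟨g (2 * t), p1⟩ ⟨(gN n x hx).1, Kx _ p1, Kc _ p1,
            Function.update (d s') (s + 1) (y (g (2 * s' + 1))),
            snoc_all (P := fun v => v ∈ U n) e1 (y1 _ p2).1,
            Clq.snoc e2.1 fun a ha => (e2.2 a ha).2,
            snoc_all (P := fun v => Cpl (E.G n) (K (g (2 * t))) (ξ + 1) v)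
              (fun a ha b hb => q (⟨a, ha⟩, ⟨b, hb⟩)) (cp _ _ (by omega) (by omega)), ?_⟩
          rw [Function.update_self]
          exact (y1 _ p2).2.2.1
      refine fin_si hE hi HU a (fun t => d (u t) a0) (fun t => K (g (2 * u t)) b0) (fun t ht => ?_)
        fun s t st ht => ⟨u3 s t st ht, ?_⟩
      · have := u1 t ht
        obtain ⟨-, -, e1, e2, -⟩ := d1 _ this
        exact ⟨e1 _ a0.2, KN _ (g4 _ (by omega)) _ b0.2, (e2.2 _ a0.2).1 _ b0.2,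
          b (Sum.inr (⟨_, g4 (2 * u t) (by omega)⟩, ⟨_, g4 (2 * u t + 1) (by omega)⟩, a0))
            ⟨g2 _ _ (by omega) (by omega), (g3 _ _ (by omega) (by omega)).2.2.2 rfl⟩⟩
      · have := u1 t ht
        have := u2 s t st ht
        exact fr _ (g4 (2 * u s) (by omega)) _ (((fb _ _ (g2 (2 * u s) (2 * u t) (by omega)
          (by omega)) (g4 _ (by omega))).1 n _ (yy _ (by omega))).2.2.2 _ a0.2) _
          (KH _ (g4 _ (by omega)) _ b0.2)

end Pool.Agent.H.MP_778a07_co
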