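import Pool.Agent.H.MP_778a07_co.E

set_option autoImplicit false

namespace Pool.Agent.H.MP_778a07_co
open Filter SimpleGraph

variable {V ι : Type}

theorem no_large [Nonempty V] {E : Env V ι} {U : ℕ → Set V} (hE : E.Ok U) {w : ℕ}
    (hC : ∀ n, NoC (E.G n) (U n) w) : ¬ Lg E.G U := by
  have A : ∀ ξ, Has E U (ξ + 1) 1 (TS (ξ + 1) 1) := by
    intro ξ
    induction ξ with
    | zero => exact has11 hE
    | succ ξ ih =>
      by_contra q
      obtain ⟨X, s1, l1, n1⟩ := not_has q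
      have B : ∀ s, Has E X (ξ + 1) (s + 1) (TS (ξ + 1) (s + 1)) := by
        intro s
        induction s with
        | zero => exact ih.mono s1
        | succ s ih2 =>
          by_contra q
          obtain ⟨Y, s2, l2, n2⟩ := not_has q
          have s2' : ∀ n, Y n ⊆ U n := fun n => (s2 n).trans (s1 n)
          refine case1 (hE.mono s2') l2 (s := s + 1) ?_ (n1.mono s2) n2
          by_contra q
          obtain ⟨Z, s3, l3, n3⟩ := not_has q
          exact case2 (hE.mono fun n => (s3 n).trans (s2' n)) l3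
            (ih2.mono fun n => (s3 n).trans (s2 n)) ((n1.mono s2).mono s3) n3
      obtain ⟨K, hK⟩ := B w X (fun _ => le_rfl) l1
      obtain ⟨n, x, -, -, -, Q, a, b, -⟩ := hK.ex
      exact hC n Q (fun t ht => s1 n (a t (by omega)))
        fun s hs t ht => b s (by omega) t (by omega)
  intro h
  obtain ⟨K, hK⟩ := A w U (fun _ => le_rfl) h
  obtain ⟨n, x, -, a, b, -⟩ := hK.ex
  exact hC n (K n) (fun t ht => (a t (by omega)).1) fun s hs t ht => b s (by omega) t (by omega)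

theorem main [Nonempty V] (k : ℕ) : ∀ w : ℕ, ∃ b, ∀ (G : SimpleGraph V) (r : ι → V → V → Prop)
    (I : Set ι) (U : Set V), U.Finite → Tr r I U → Wd G r I U k → NoC G U w → Col G U b := by
  induction k with
  | zero =>
    refine fun w => ⟨1, fun G r I U _ hT hW _ => ⟨fun _ => 0, by simp, fun x hx y hy e _ => ?_⟩⟩
    obtain ⟨i, hi, -, b⟩ := hT.sep {x, y} (by rintro _ (rfl | rfl); exacts [hx, hy])
      ⟨x, Or.inl rfl, y, Or.inr rfl, e.ne⟩ x hx
    exact hW i hi (fun _ => x) (fun _ => y)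
      (fun _ _ => ⟨hx, hy, e, fun t => e.ne' (b y (Or.inr rfl) t)⟩) fun s hs t ht n => by omega
  | succ k ihk =>
    intro w
    induction w with
    | zero => exact ⟨0, fun G r I U _ _ _ h =>
        (h (fun _ => Classical.arbitrary V) (by simp) (by simp [Clq])).elim⟩
    | succ w ihw =>
      obtain ⟨τ, hτ⟩ := ihw
      obtain ⟨σ, hσ⟩ := ihk (w + 1)
      obtain ⟨M, hM⟩ := si_exists (k + 1) (w + 1)
      by_contra q
      push Not at q
      choose G r I U a b c d e using q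
      refine no_large (E := ⟨G, r, I, k, σ, τ, M⟩) (U := U) ⟨a, b, c,
        fun n => hM _ _ _ _ _ _ (c n) (d n), fun n v hv => ?_, fun n r' I' X s p q =>
          hσ _ r' I' X ((a n).subset s) p q ((d n).mono s)⟩ d fun m => ?_
      · have s : {x | x ∈ U n ∧ (G n).Adj x v} ⊆ U n := fun x hx => hx.1
        exact hτ _ (r n) (I n) _ ((a n).subset s) ((b n).mono s) ((c n).mono s) fun K p q =>
          d n (Function.update K w v) (snoc_all (P := fun x => x ∈ U n) (fun t ht => (p t ht).1) hv)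
            (q.snoc fun t ht => (p t ht).2.symm)
      · have t : ∀ᶠ n in (hyperfilter ℕ : Filter ℕ), m ≤ n :=
          Nat.hyperfilter_le_atTop (eventually_ge_atTop m)
        exact t.mono fun n p q => e n (q.mono le_rfl p)

theorem main' (k w : ℕ) : ∃ b, ∀ (n m : ℕ) (G : SimpleGraph (Fin n))
    (r : Fin m → Fin n → Fin n → Prop), Tr r Set.univ Set.univ → Wd G r Set.univ Set.univ k →
    NoC G Set.univ w → Col G Set.univ b := by
  obtain ⟨b, hb⟩ := main (V := ℕ) (ι := ℕ) k w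
  refine ⟨b, fun n m G r hT hW hC => ?_⟩
  rcases Nat.eq_zero_or_pos n with rfl | hn
  · exact ⟨fun _ => 0, fun x => x.elim0, fun x => x.elim0⟩
  let π : ℕ → Fin n := fun v => if h : v < n then ⟨v, h⟩ else ⟨0, hn⟩
  have p1 : ∀ x : Fin n, π x = x := fun x => by simp only [π, dif_pos x.2]
  have p2 : ∀ u < n, ∀ v < n, π u = π v → u = v := fun u hu v hv e => by
    simpa only [π, dif_pos hu, dif_pos hv, Fin.mk.injEq] using e
  obtain ⟨c, c1, c2⟩ := hb (G.comap π) (fun t u v => ∀ h : t < m, r ⟨t, h⟩ (π u) (π v))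
    {t | t < m} {v | v < n} (Set.finite_lt_nat n)
    ⟨fun t => ⟨fun _ _ => (hT.eqv _).refl _, fun e h => (hT.eqv _).symm (e h),
      fun e f h => (hT.eqv _).trans (e h) (f h)⟩, fun i hi j hj ne => by
        obtain ⟨A, B, a1, a2, a3⟩ := hT.nest ⟨i, hi⟩ trivial ⟨j, hj⟩ trivial
          fun e => ne (congrArg Fin.val e)
        exact ⟨π ⁻¹' A, π ⁻¹' B, fun v _ => a1 _ trivial, fun u hu v hv _ => a2 _ hu _ hv,
          fun u hu v hv _ => a3 _ hu _ hv⟩, fun H hH ⟨u, hu, v, hv, ne⟩ x hx => by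
        obtain ⟨i, -, ⟨_, ⟨a, ha, rfl⟩, _, ⟨b, hb, rfl⟩, e⟩, f⟩ := hT.sep (π '' H) (Set.subset_univ _)
          ⟨_, ⟨u, hu, rfl⟩, _, ⟨v, hv, rfl⟩, fun e => ne (p2 u (hH hu) v (hH hv) e)⟩ (π x) trivial
        exact ⟨i, i.2, ⟨a, ha, b, hb, fun t => e (t i.2)⟩,
          fun h hh t => p2 h (hH hh) x hx (f _ ⟨h, hh, rfl⟩ (t i.2))⟩⟩
    (fun i hi o p a b => hW ⟨i, hi⟩ trivial (fun t => π (o t)) (fun t => π (p t))
      (fun t ht => ⟨trivial, trivial, (a t ht).2.2.1, fun e => (a t ht).2.2.2 fun _ => e⟩) b)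
    fun K _ q => hC (fun t => π (K t)) (fun _ _ => trivial) q
  refine ⟨fun x => c x, fun x _ => c1 x x.2, fun x _ y _ e => c2 x x.2 y y.2 ?_⟩
  show G.Adj (π x) (π y)
  rwa [p1, p1]

section tree
variable [DecidableEq ι] {T : SimpleGraph ι} {L : V → ι}

def Rt (T : SimpleGraph ι) (L : V → ι) (t : ι) (u v : V) : Prop :=
  u = v ∨ ∃ p : T.Walk (L u) (L v), t ∉ p.support

omit [DecidableEq ι] in
lemma av_app {a b c t : ι} (p : T.Walk a b) (q : T.Walk b c) (h : t ∉ p.support)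
    (h' : t ∉ q.support) : t ∉ (p.append q).support := fun e =>
  ((Walk.mem_support_append_iff _ _).1 e).elim h h'

omit [DecidableEq ι] in
lemma av_rev {a b t : ι} (p : T.Walk a b) (h : t ∉ p.support) : t ∉ p.reverse.support := by
  simpa using h

omit [DecidableEq ι] in
lemma rt_eqv (t : ι) : Equivalence (Rt T L t) := by
  refine ⟨fun _ => Or.inl rfl, ?_, ?_⟩
  · rintro u v (rfl | ⟨p, h⟩)
    exacts [Or.inl rfl, Or.inr ⟨p.reverse, av_rev p h⟩]
  · rintro u v w (rfl | ⟨p, h⟩) e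
    · exact e
    · rcases e with rfl | ⟨q, h'⟩
      exacts [Or.inr ⟨p, h⟩, Or.inr ⟨p.append q, av_app p q h h'⟩]

omit [DecidableEq ι] in
lemma first (hT : T.IsTree) {t z : ι} (h : t ≠ z) : ∃ t', T.Adj t t' ∧ ∃ p : T.Walk t' z,
    t ∉ p.support ∧ T.dist t' z < T.dist t z := by
  obtain ⟨p, hp, e⟩ := hT.connected.exists_path_of_dist t z
  cases p with
  | nil => exact (h rfl).elim
  | cons a p =>
    refine ⟨_, a, p, ((Walk.cons_isPath_iff _ _).1 hp).2, ?_⟩
    have := T.dist_le p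
    rw [Walk.length_cons] at e
    omega

omit [DecidableEq ι] in
lemma brg (hT : T.IsTree) {t t' : ι} (e : T.Adj t' t) (p : T.Walk t' t) : s(t', t) ∈ p.edges :=
  isBridge_iff_forall_walk_mem_edges.1
    (isAcyclic_iff_forall_isBridge.1 hT.isAcyclic (e := s(t', t)) e) p

theorem tree_tr [Finite ι] (hT : T.IsTree) : Tr (Rt T L) Set.univ Set.univ := by
  refine ⟨rt_eqv, fun i _ j _ ne => ?_, fun H _ ⟨u, hu, v, hv, ne⟩ x _ => ?_⟩
  · refine ⟨{v | ∃ p : T.Walk (L v) j, i ∉ p.support}, {v | ∃ p : T.Walk (L v) i, j ∉ p.support},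
      fun v _ => ?_, fun u ⟨p, a⟩ v ⟨q, b⟩ => Or.inr ⟨p.append q.reverse, av_app _ _ a (av_rev q b)⟩,
      fun u ⟨p, a⟩ v ⟨q, b⟩ => Or.inr ⟨p.append q.reverse, av_app _ _ a (av_rev q b)⟩⟩
    obtain ⟨p, hp, -⟩ := hT.connected.exists_path_of_dist (L v) j
    by_cases e : i ∈ p.support
    · exact Or.inr ⟨p.takeUntil i e, Walk.endpoint_notMem_support_takeUntil hp e ne.symm⟩
    · exact Or.inl ⟨p, e⟩
  · obtain ⟨t, ht, hm⟩ := Set.exists_min_image {t | ∃ u ∈ H, ∃ v ∈ H, ¬ Rt T L t u v}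
      (fun t => T.dist t (L x)) (Set.toFinite _) ⟨L u, u, hu, v, hv, by
        rintro (e | ⟨p, e⟩)
        exacts [ne e, e p.start_mem_support]⟩
    refine ⟨t, trivial, ht, fun h hh e => ?_⟩
    rcases e with e | ⟨q, hq⟩
    · exact e.symm
    exfalso
    obtain ⟨t', a, p, hp, l⟩ := first hT (z := L x) (t := t) fun e => hq (e ▸ q.start_mem_support)
    obtain ⟨g, hg, n⟩ : ∃ g ∈ H, ¬ Rt T L t h g := by
      by_contra hn
      push Not at hn
      obtain ⟨a, ha, b, hb, e⟩ := ht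
      exact e ((rt_eqv t).trans ((rt_eqv t).symm (hn a ha)) (hn b hb))
    refine absurd (hm t' ⟨h, hh, g, hg, ?_⟩) (not_le.2 l)
    rintro (e | ⟨w, hw⟩)
    · exact n (Or.inl e)
    have m : t ∈ w.support := not_not.1 fun e => n (Or.inr ⟨w, e⟩)
    have := brg hT a.symm ((p.append q).append (w.takeUntil t m))
    rw [Walk.edges_append, List.mem_append] at this
    rcases this with e | e
    · exact av_app p q hp hq (Walk.snd_mem_support_of_mem_edges _ e)
    · exact hw (w.support_takeUntil_subset_support m (Walk.fst_mem_support_of_mem_edges _ e))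

lemma side (hT : T.IsTree) {t : ι} {a b : V} (h : ¬ Rt T L t a b) (n : t ≠ L a) :
    ∃ t', T.Adj t' t ∧ (T.deleteEdges {s(t', t)}).Reachable t' (L a) ∧
      ¬ (T.deleteEdges {s(t', t)}).Reachable t' (L b) := by
  obtain ⟨t', e, p, hp, -⟩ := first hT n
  refine ⟨t', e.symm, reachable_deleteEdges_iff_exists_walk.2
    ⟨p, fun z => hp (Walk.snd_mem_support_of_mem_edges _ z)⟩, fun z => ?_⟩
  obtain ⟨q, hq⟩ := reachable_deleteEdges_iff_exists_walk.1 z
  by_cases m : t ∈ q.support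
  · exact hq (q.edges_takeUntil_subset_edges m (brg hT e.symm (q.takeUntil t m)))
  · exact h (Or.inr ⟨p.reverse.append q, av_app _ _ (av_rev p hp) m⟩)

theorem tree_wd [Finite ι] (hT : T.IsTree) (hL : Function.Injective L)
    (hd : ∀ x, (T.neighborSet x).ncard ≤ 3) {G : SimpleGraph V} {k : ℕ}
    (h : ∀ u w : ι, T.Adj u w → ∀ (t : ℕ) (a b : Fin t → V),
      Function.Injective a → Function.Injective b →
      (∀ i, (T.deleteEdges {s(u, w)}).Reachable u (L (a i))) →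
      (∀ i, ¬ (T.deleteEdges {s(u, w)}).Reachable u (L (b i))) →
      (∀ i, G.Adj (a i) (b i)) →
      (∀ i j, i ≠ j → ¬ G.Adj (a i) (a j) ∧ ¬ G.Adj (b i) (b j) ∧ ¬ G.Adj (a i) (b j)) → t ≤ k) :
    Wd G (Rt T L) Set.univ Set.univ (3 * k) := by
  classical
  intro t _ o w p q
  have hx : ∀ j ≤ 3 * k, ∃ (t' : ι) (a b : V), T.Adj t' t ∧ ((a = o j ∧ b = w j) ∨ (a = w j ∧ b = o j)) ∧
      (T.deleteEdges {s(t', t)}).Reachable t' (L a) ∧
      ¬ (T.deleteEdges {s(t', t)}).Reachable t' (L b) := fun j hj => by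
    obtain ⟨-, -, p1, p2⟩ := p j hj
    by_cases e : t = L (o j)
    · obtain ⟨t', x, y⟩ := side hT (fun z => p2 ((rt_eqv t).symm z))
        fun z => p1.ne (hL (e.symm.trans z))
      exact ⟨t', _, _, x, Or.inr ⟨rfl, rfl⟩, y⟩
    · obtain ⟨t', x, y⟩ := side hT p2 e
      exact ⟨t', _, _, x, Or.inl ⟨rfl, rfl⟩, y⟩
  have : Nonempty ι := ⟨t⟩
  have : Nonempty V := ⟨o 0⟩
  choose! d a b d1 d2 d3 d4 using hx
  have fin := Set.toFinite (T.neighborSet t)
  obtain ⟨z, hz, c⟩ := Finset.exists_lt_card_fiber_of_mul_lt_card_of_maps_to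
    (s := Finset.range (3 * k + 1)) (t := fin.toFinset) (f := d) (n := k)
    (fun j hj => fin.mem_toFinset.2 (d1 j (by simpa [Nat.lt_succ_iff] using hj)).symm)
    (by
      have := hd t
      rw [Set.ncard_eq_toFinset_card _ fin] at this
      rw [Finset.card_range]
      nlinarith)
  set S := (Finset.range (3 * k + 1)).filter fun j => d j = z
  let e : Fin S.card → ℕ := fun i => (S.equivFin.symm i : ℕ)
  have e0 : ∀ i, e i ∈ S := fun i => Subtype.prop _
  have e1 : ∀ i, e i ≤ 3 * k := fun i => by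
    have := Finset.mem_range.1 (Finset.mem_filter.1 (e0 i)).1
    omega
  have e2 : ∀ i, d (e i) = z := fun i => (Finset.mem_filter.1 (e0 i)).2
  have e3 : ∀ i j, i ≠ j → e i ≠ e j := fun i j n x => n (S.equivFin.symm.injective (Subtype.ext x))
  have ad : ∀ i, G.Adj (a (e i)) (b (e i)) := fun i => by
    rcases d2 _ (e1 i) with ⟨x, y⟩ | ⟨x, y⟩ <;> rw [x, y]
    exacts [(p _ (e1 i)).2.2.1, (p _ (e1 i)).2.2.1.symm]
  have na : ∀ i j, i ≠ j → ¬ G.Adj (a (e i)) (a (e j)) ∧ ¬ G.Adj (b (e i)) (b (e j)) ∧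
      ¬ G.Adj (a (e i)) (b (e j)) := fun i j n => by
    obtain ⟨q1, q2, q3⟩ := q _ (e1 i) _ (e1 j) (e3 i j n)
    have q4 : ¬ G.Adj (w (e i)) (o (e j)) := fun x =>
      (q _ (e1 j) _ (e1 i) (e3 i j n).symm).2.2 x.symm
    rcases d2 _ (e1 i) with ⟨x, y⟩ | ⟨x, y⟩ <;> rcases d2 _ (e1 j) with ⟨x', y'⟩ | ⟨x', y'⟩ <;>
      rw [x, y, x', y']
    exacts [⟨q1, q2, q3⟩, ⟨q3, q4, q1⟩, ⟨q4, q3, q2⟩, ⟨q2, q1, q4⟩]
  have := h z t (fin.mem_toFinset.1 hz).symm S.card (fun i => a (e i)) (fun i => b (e i))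
    (fun i j x => not_not.1 fun n => (na j i (Ne.symm n)).2.2 (by
      have := ad i
      rwa [show a (e i) = a (e j) from x] at this))
    (fun i j x => not_not.1 fun n => (na i j n).2.2 (by
      have := ad i
      rwa [show b (e i) = b (e j) from x] at this))
    (fun i => e2 i ▸ d3 _ (e1 i)) (fun i => e2 i ▸ d4 _ (e1 i)) ad na
  omega

end tree

end Pool.Agent.H.MP_778a07_co
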